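import Pool.Agent.D0H63.TW.Top

set_option autoImplicit false

/-! Two towers with top entries near a real vector. -/

namespace Pool.Agent.D0H63.TW

open Finset Filter
open Pool.Agent.D0H4.Gam Pool.Agent.H301R2.SSE

variable {k d : ℕ}

theorem Indep.divz {ω : Fin d → ℝ} (h : Indep ω) {q : ℤ} (hq : q ≠ 0) : Indep (fun j => ω j / q) := by
  have hq0 : (q : ℝ) ≠ 0 := Int.cast_ne_zero.2 hq
  refine ⟨fun j => ?_, fun r n hn => ?_⟩
  · exact (h.1 j).mul (isAlgebraic_intCast q).inv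
  · refine h.2 (q * r) n ?_
    push_cast
    rw [← hn, Finset.mul_sum]
    refine sum_congr rfl fun j _ => ?_
    field_simp

/-- the rational matrices for which both towers are exceptional -/
def PairSet (b : Fin k → ℝ) (ω : Fin d → ℝ) (v v' : ℂ) : Set (Fin k × Fin d → ℚ) :=
  {r | v * Complex.exp (lf b (fun i => ∑ j, ((r (i, j) : ℚ) : ℝ) * ω j)) ∈ Lt ∧
    v' * Complex.exp (lf b (fun i => ∑ j, ((r (i, j) : ℚ) : ℝ) * ω j)) ∈ Lt}

theorem pair_finset {b : Fin k → ℝ} (hb : IsBase b) {ω : Fin d → ℝ} (hω : Indep ω) {v v' : ℂ} (hv' : v' ≠ 0)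
    (htr : Transcendental ℚ (v / v')) (S : Finset (Fin k × Fin d → ℚ)) (hS : (S : Set (Fin k × Fin d → ℚ)) ⊆ PairSet b ω v v') :
    S.card ≤ k * d + 1 := by
  classical
  obtain ⟨q, hq⟩ := IsLocalization.exist_integer_multiples_of_finset (nonZeroDivisors ℤ)
    (S.biUnion fun r => Finset.univ.image r)
  have hq0 : (q : ℤ) ≠ 0 := nonZeroDivisors.coe_ne_zero q
  have h1 : ∀ r ∈ S, ∀ p, ∃ m : ℤ, (m : ℚ) = q * r p := by
    intro r hr p
    obtain ⟨m, hm⟩ := hq (r p) (Finset.mem_biUnion.2 ⟨r, hr, Finset.mem_image.2 ⟨p, Finset.mem_univ _, rfl⟩⟩)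
    refine ⟨m, ?_⟩
    have h2 : (algebraMap ℤ ℚ) m = (q : ℤ) • r p := hm
    rw [zsmul_eq_mul] at h2
    exact h2
  choose! m hm using h1
  have hqR : ((q : ℤ) : ℝ) ≠ 0 := Int.cast_ne_zero.2 hq0
  have hqQ : ((q : ℤ) : ℚ) ≠ 0 := Int.cast_ne_zero.2 hq0
  have hsum : ∀ r ∈ S, (fun i => ∑ j, ((r (i, j) : ℚ) : ℝ) * ω j) = fun i => ∑ j, (m r (i, j) : ℝ) * (ω j / (q : ℤ)) := by
    intro r hr
    funext i
    refine sum_congr rfl fun j _ => ?_
    have h2 : ((m r (i, j) : ℤ) : ℝ) = (q : ℤ) * ((r (i, j) : ℚ) : ℝ) := by exact_mod_cast congrArg (Rat.cast (K := ℝ)) (hm r hr (i, j))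
    rw [h2]
    field_simp
  have hω' := hω.divz hq0
  set l : Fin k × Fin d → ℂ := fun p => ((ω p.2 / (q : ℤ) : ℝ) : ℂ) * lg b p.1 with hl
  have hlin : ∀ m : Fin k × Fin d → ℤ, lin l m = lf b (fun i => ∑ j, (m (i, j) : ℝ) * (ω j / (q : ℤ))) := by
    intro m
    unfold lin lf
    rw [Fintype.sum_prod_type]
    refine sum_congr rfl (fun i _ => ?_)
    push_cast
    rw [sum_mul]
    refine sum_congr rfl (fun j _ => ?_)
    simp only [hl]
    push_cast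
    ring
  have htr' : ∀ m : Fin k × Fin d → ℤ, m ≠ 0 → Transcendental ℚ (Complex.exp (lin l m)) := by
    intro m hm0
    rw [hlin]
    refine tr_of hb.1 hb.2.1 hb.2.2 ?_ ?_
    · intro i
      rw [← mem_algebraicClosure_iff (F := ℚ) (E := ℝ)]
      refine sum_mem (fun j _ => mul_mem ?_ (mem_algebraicClosure_iff.mpr (hω'.1 j)))
      exact intCast_mem _ _
    · intro hall
      apply hm0
      funext p
      obtain ⟨q', hq'⟩ := hall p.1
      have := hω'.2 q' (fun j => m (p.1, j)) hq'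
      exact congrFun this p.2
  have hinj : Set.InjOn m (S : Set (Fin k × Fin d → ℚ)) := by
    intro r hr r' hr' h
    funext p
    have h2 := hm r hr p
    have h3 := hm r' hr' p
    rw [h, h3] at h2
    exact (mul_left_cancel₀ hqQ h2).symm
  have h4 := pair_count l htr' hv' htr (S.image m) (by
    intro n hn
    obtain ⟨r, hr, rfl⟩ := Finset.mem_image.1 hn
    rw [hlin, ← hsum r hr]
    exact (hS hr).1) (by
    intro n hn
    obtain ⟨r, hr, rfl⟩ := Finset.mem_image.1 hn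
    rw [hlin, ← hsum r hr]
    exact (hS hr).2)
  rw [Finset.card_image_of_injOn hinj, Fintype.card_prod, Fintype.card_fin, Fintype.card_fin] at h4
  exact h4

theorem pair_set {b : Fin k → ℝ} (hb : IsBase b) {ω : Fin d → ℝ} (hω : Indep ω) {v v' : ℂ} (hv' : v' ≠ 0)
    (htr : Transcendental ℚ (v / v')) : (PairSet b ω v v').Finite ∧ (PairSet b ω v v').ncard ≤ k * d + 1 := by
  classical
  have hfin : (PairSet b ω v v').Finite := by
    by_contra h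
    obtain ⟨S, hS, hcard⟩ := Set.Infinite.exists_subset_card_eq h (k * d + 2)
    have := pair_finset hb hω hv' htr S hS
    omega
  refine ⟨hfin, ?_⟩
  rw [Set.ncard_eq_toFinset_card _ hfin]
  exact pair_finset hb hω hv' htr _ (by rw [Set.Finite.coe_toFinset])

theorem count_pair {b : Fin k → ℝ} (hb : IsBase b) {ω : Fin d → ℝ} (hω : Indep ω) {v v' : ℂ} (hv' : v' ≠ 0)
    (htr : Transcendental ℚ (v / v')) (T : ℕ) :
    {x : Fin k → ℝ | x ∈ Pts ω (T : ℝ) ∧ v * Complex.exp (lf b x) ∈ Lt ∧ v' * Complex.exp (lf b x) ∈ Lt}.Finite ∧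
    ({x : Fin k → ℝ | x ∈ Pts ω (T : ℝ) ∧ v * Complex.exp (lf b x) ∈ Lt ∧ v' * Complex.exp (lf b x) ∈ Lt}.ncard : ℝ) ≤
      (k * d + 1) * (T * (2 * T + 1) ^ k) := by
  classical
  obtain ⟨hP1, hP2⟩ := pair_set hb hω hv' htr
  let P : Set (Fin k → ℤ) := {p | ∀ i, |p i| ≤ T}
  have hPf : P = ((Fintype.piFinset fun _ : Fin k => Icc (-(T : ℤ)) T : Finset (Fin k → ℤ)) : Set (Fin k → ℤ)) := by
    ext p
    simp only [P, Set.mem_ofPred_eq, Finset.mem_coe, Fintype.mem_piFinset, mem_Icc, abs_le]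
  have hPfin : P.Finite := by
    rw [hPf]
    exact Finset.finite_toSet _
  have hPcard : (P.ncard : ℝ) = (2 * T + 1) ^ k := by
    rw [hPf, Set.ncard_coe_finset, Fintype.card_piFinset]
    simp only [Int.card_Icc, prod_const, card_univ, Fintype.card_fin]
    push_cast
    congr 1
    have : ((T : ℤ) + 1 - -(T : ℤ)).toNat = 2 * T + 1 := by omega
    rw [this]
    push_cast
    ring
  have hfin := hP1.prod ((Finset.finite_toSet (Icc 1 T)).prod hPfin)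
  have hsub : {x : Fin k → ℝ | x ∈ Pts ω (T : ℝ) ∧ v * Complex.exp (lf b x) ∈ Lt ∧ v' * Complex.exp (lf b x) ∈ Lt} ⊆
      (fun z : (Fin k × Fin d → ℚ) × ℕ × (Fin k → ℤ) => fun i => (z.2.2 i : ℝ) / z.2.1 + ∑ j, ((z.1 (i, j) : ℚ) : ℝ) * ω j) ''
        (PairSet b ω v v' ×ˢ (((Icc 1 T : Finset ℕ) : Set ℕ) ×ˢ P)) := by
    rintro x ⟨⟨q, p, n, h1, h2, h3, h4, h5⟩, hbad, hbad'⟩
    have hx : x = (fun i => (p i : ℝ) / q) + (fun i => ∑ j, ((((n (i, j) : ℚ) / q : ℚ) : ℝ)) * ω j) := by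
      funext i
      rw [h5 i, Pi.add_apply, add_div, Finset.sum_div]
      congr 1
      refine sum_congr rfl fun j _ => ?_
      push_cast
      ring
    have halg : IsAlgebraic ℚ (Complex.exp (lf b (fun i => (p i : ℝ) / q))) :=
      alg_of hb.1 hb.2.1 (fun i => ⟨(p i : ℚ) / q, by push_cast; rfl⟩)
    have key : ∀ u : ℂ, u * Complex.exp (lf b x) ∈ Lt →
        u * Complex.exp (lf b (fun i => ∑ j, ((((n (i, j) : ℚ) / q : ℚ) : ℝ)) * ω j)) ∈ Lt := by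
      intro u hu
      rw [hx, lf_add, Complex.exp_add] at hu
      have h6 : Complex.exp (lf b (fun i => (p i : ℝ) / q)) *
          (u * Complex.exp (lf b (fun i => ∑ j, ((((n (i, j) : ℚ) / q : ℚ) : ℝ)) * ω j))) ∈ Lt := by
        convert hu using 1
        ring
      rwa [Lt_mul_iff halg (Complex.exp_ne_zero _)] at h6
    refine ⟨(fun p => (n p : ℚ) / q, q, p), ⟨⟨key v hbad, key v' hbad'⟩, ?_, ?_⟩, ?_⟩
    · rw [Finset.mem_coe, mem_Icc]
      exact ⟨h1, by exact_mod_cast h2⟩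
    · intro i
      exact_mod_cast h3 i
    · exact hx.symm
  refine ⟨(hfin.image _).subset hsub, ?_⟩
  have h1 := (Set.ncard_le_ncard hsub (hfin.image _)).trans (Set.ncard_image_le hfin)
  rw [Set.ncard_prod, Set.ncard_prod, Set.ncard_coe_finset, Nat.card_Icc, Nat.add_sub_cancel] at h1
  have h2 : (({x : Fin k → ℝ | x ∈ Pts ω (T : ℝ) ∧ v * Complex.exp (lf b x) ∈ Lt ∧ v' * Complex.exp (lf b x) ∈ Lt}.ncard : ℕ) : ℝ) ≤
      ((PairSet b ω v v').ncard : ℝ) * (T * (P.ncard : ℝ)) := by exact_mod_cast h1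
  rw [hPcard] at h2
  refine h2.trans (mul_le_mul_of_nonneg_right ?_ (by positivity))
  exact_mod_cast hP2

theorem count_level2 {b : Fin k → ℝ} (hb : IsBase b) {ω : Fin d → ℝ} (hω : Indep ω) {v v' : ℂ} (hv' : v' ≠ 0)
    (htr : Transcendental ℚ (v / v')) :
    ∃ C : ℝ, ∀ m : ℕ, {x : Fin k → ℝ | x ∈ Pts ω ((2 : ℝ) ^ m) ∧ v * Complex.exp (lf b x) ∈ Lt ∧
      v' * Complex.exp (lf b x) ∈ Lt}.Finite ∧
    ({x : Fin k → ℝ | x ∈ Pts ω ((2 : ℝ) ^ m) ∧ v * Complex.exp (lf b x) ∈ Lt ∧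
      v' * Complex.exp (lf b x) ∈ Lt}.ncard : ℝ) ≤ C * ((2 : ℝ) ^ m) ^ ((k : ℝ) + 1) := by
  refine ⟨(k * d + 1) * 3 ^ k, fun m => ?_⟩
  have h := count_pair hb hω hv' htr (2 ^ m)
  push_cast at h
  refine ⟨h.1, h.2.trans ?_⟩
  obtain ⟨X, hX⟩ : ∃ X : ℝ, X = 2 ^ m := ⟨_, rfl⟩
  have hX1 : 1 ≤ X := by rw [hX]; exact one_le_pow₀ (by norm_num)
  have hX0 : 0 < X := by linarith
  rw [← hX]
  have h1 : (2 * X + 1) ^ k ≤ 3 ^ k * X ^ k := by
    rw [← mul_pow]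
    exact pow_le_pow_left₀ (by linarith) (by linarith) _
  rw [Real.rpow_add_one hX0.ne', Real.rpow_natCast]
  calc ((k : ℝ) * d + 1) * (X * (2 * X + 1) ^ k) ≤ (k * d + 1) * (X * (3 ^ k * X ^ k)) := by gcongr
    _ = _ := by ring

theorem one2 {b : Fin k → ℝ} (hb : IsBase b) {ω : Fin d → ℝ} (hω : Indep ω) {v v' : ℂ} (hv' : v' ≠ 0)
    (htr : Transcendental ℚ (v / v')) {τ : ℝ} (hτ : 0 < τ) :
    dimH {ξ : Fin k → ℝ | ¬ ∀ C : ℝ, ∀ᶠ m : ℕ in atTop,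
      ∀ x ∈ {x : Fin k → ℝ | x ∈ Pts ω ((2 : ℝ) ^ m) ∧ v * Complex.exp (lf b x) ∈ Lt ∧ v' * Complex.exp (lf b x) ∈ Lt},
        ¬ dist ξ x ≤ C * ((2 : ℝ) ^ m) ^ (-τ)} ≤ ENNReal.ofReal (((k : ℝ) + 1) / τ) := by
  obtain ⟨C, hC⟩ := count_level2 hb hω hv' htr
  refine MR.levels (fun m => {x : Fin k → ℝ | x ∈ Pts ω ((2 : ℝ) ^ m) ∧ v * Complex.exp (lf b x) ∈ Lt ∧
      v' * Complex.exp (lf b x) ∈ Lt})
    (by positivity) hτ fun ε hε => ⟨|C|, Eventually.of_forall fun m => ⟨(hC m).1, (hC m).2.trans ?_⟩⟩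
  have h1 : (1 : ℝ) ≤ 2 ^ m := one_le_pow₀ (by norm_num)
  calc C * ((2 : ℝ) ^ m) ^ ((k : ℝ) + 1) ≤ |C| * ((2 : ℝ) ^ m) ^ ((k : ℝ) + 1) :=
        mul_le_mul_of_nonneg_right (le_abs_self C) (by positivity)
    _ ≤ |C| * ((2 : ℝ) ^ m) ^ ((k : ℝ) + 1 + ε) :=
        mul_le_mul_of_nonneg_left (Real.rpow_le_rpow_of_exponent_le h1 (by linarith)) (abs_nonneg _)

theorem top2 (hLt : (Lt : Set ℂ).Countable) {τ : ℝ} (hτ : 0 < τ) :
    ∃ E : Set (Fin k → ℝ), dimH E ≤ ENNReal.ofReal (((k : ℝ) + 1) / τ) ∧ ∀ ξ, ξ ∉ E →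
      ∀ (b : Fin k → ℝ), IsBase b → ∀ (d : ℕ) (ω : Fin d → ℝ), Indep ω → ∀ v v' : ℂ, v' ≠ 0 → Transcendental ℚ (v / v') →
        ∀ C : ℝ, ∀ᶠ T : ℝ in atTop,
        ∀ x ∈ Pts ω T, (∀ i, |ξ i - x i| ≤ C * T ^ (-τ)) →
          v * Complex.exp (lf b x) ∉ Lt ∨ v' * Complex.exp (lf b x) ∉ Lt := by
  classical
  have hA : Countable {x : ℝ // IsAlgebraic ℚ x} := (Algebraic.countable ℚ ℝ).to_subtype
  have hL : Countable ↑(Lt : Set ℂ) := hLt.to_subtype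
  let J := Σ d : ℕ, (Fin k → {x : ℝ // IsAlgebraic ℚ x}) × (Fin d → {x : ℝ // IsAlgebraic ℚ x}) ×
    (ℕ × (Fin k → ℤ) × (Fin k × Fin d → ℤ)) × ↑(Lt : Set ℂ) × ↑(Lt : Set ℂ)
  let B : J → Fin k → ℝ := fun j i => (j.2.1 i : ℝ)
  let Om : (j : J) → Fin j.1 → ℝ := fun j i => (j.2.2.1 i : ℝ)
  let V : J → ℂ := fun j => (j.2.2.2.2.1 : ℂ) / Complex.exp (lf (B j) (pt (Om j) j.2.2.2.1))
  let V' : J → ℂ := fun j => (j.2.2.2.2.2 : ℂ) / Complex.exp (lf (B j) (pt (Om j) j.2.2.2.1))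
  let G : J → Set (Fin k → ℝ) := fun j => if IsBase (B j) ∧ Indep (Om j) ∧ V' j ≠ 0 ∧ Transcendental ℚ (V j / V' j) then
    {ξ : Fin k → ℝ | ¬ ∀ C : ℝ, ∀ᶠ m : ℕ in atTop,
      ∀ x ∈ {x : Fin k → ℝ | x ∈ Pts (Om j) ((2 : ℝ) ^ m) ∧ V j * Complex.exp (lf (B j) x) ∈ Lt ∧
        V' j * Complex.exp (lf (B j) x) ∈ Lt},
        ¬ dist ξ x ≤ C * ((2 : ℝ) ^ m) ^ (-τ)} else ∅
  obtain ⟨E, hE⟩ : ∃ E : Set (Fin k → ℝ), E = ⋃ j : J, G j := ⟨_, rfl⟩
  refine ⟨E, ?_, fun ξ hξ b hb d ω hω v v' hv' htr C => ?_⟩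
  · rw [hE, dimH_iUnion]
    refine iSup_le fun j => ?_
    by_cases h : IsBase (B j) ∧ Indep (Om j) ∧ V' j ≠ 0 ∧ Transcendental ℚ (V j / V' j)
    · simp only [G, if_pos h]
      exact one2 h.1 h.2.1 h.2.2.1 h.2.2.2 hτ
    · simp only [G, if_neg h]
      rw [dimH_empty]
      exact bot_le
  · by_cases hex : ∃ z : ℕ × (Fin k → ℤ) × (Fin k × Fin d → ℤ), v * Complex.exp (lf b (pt ω z)) ∈ Lt ∧
        v' * Complex.exp (lf b (pt ω z)) ∈ Lt
    · obtain ⟨z, hz, hz'⟩ := hex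
      let j : J := ⟨d, fun i => ⟨b i, hb.2.1 i⟩, fun i => ⟨ω i, hω.1 i⟩, z, ⟨_, hz⟩, ⟨_, hz'⟩⟩
      have hV : V j = v := mul_div_cancel_right₀ _ (Complex.exp_ne_zero _)
      have hV' : V' j = v' := mul_div_cancel_right₀ _ (Complex.exp_ne_zero _)
      have h1 : ξ ∉ G j := by
        intro h
        apply hξ
        rw [hE]
        exact Set.mem_iUnion.2 ⟨j, h⟩
      have h2 : IsBase (B j) ∧ Indep (Om j) ∧ V' j ≠ 0 ∧ Transcendental ℚ (V j / V' j) :=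
        ⟨hb, hω, by rw [hV']; exact hv', by rw [hV, hV']; exact htr⟩
      simp only [G, if_pos h2] at h1
      rw [Set.mem_ofPred_eq, not_not] at h1
      have h3 := h1 (|C| * 2 ^ τ)
      filter_upwards [MR.lv_tendsto.eventually h3, eventually_ge_atTop 1] with T hT hT1 x hx hclose
      by_contra hbad
      push Not at hbad
      obtain ⟨h4, h5⟩ := MR.lv_spec hT1
      have hT0 : 0 < T := by linarith
      refine hT x ⟨pts_mono _ h4 hx, ?_, ?_⟩ ?_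
      · rw [hV]
        exact hbad.1
      · rw [hV']
        exact hbad.2
      · have h6 : T ^ (-τ) ≤ 2 ^ τ * ((2 : ℝ) ^ MR.lv T) ^ (-τ) := by
          have h7 : ((2 : ℝ) * T) ^ (-τ) ≤ ((2 : ℝ) ^ MR.lv T) ^ (-τ) :=
            Real.rpow_le_rpow_of_nonpos (by positivity) h5 (by linarith)
          rw [Real.mul_rpow (by norm_num) hT0.le, Real.rpow_neg (by norm_num : (0 : ℝ) ≤ 2)] at h7
          have h8 : (0 : ℝ) < 2 ^ τ := by positivity
          rwa [inv_mul_le_iff₀ h8] at h7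
        rw [dist_pi_le_iff (by positivity)]
        intro i
        rw [Real.dist_eq]
        calc |ξ i - x i| ≤ C * T ^ (-τ) := hclose i
          _ ≤ |C| * T ^ (-τ) := mul_le_mul_of_nonneg_right (le_abs_self C) (by positivity)
          _ ≤ |C| * (2 ^ τ * ((2 : ℝ) ^ MR.lv T) ^ (-τ)) := mul_le_mul_of_nonneg_left h6 (abs_nonneg _)
          _ = _ := by ring
    · push Not at hex
      refine Eventually.of_forall fun T x hx _ => ?_
      obtain ⟨q, p, n, h1, h2, h3, h4, h5⟩ := hx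
      have h6 : x = pt ω (q, p, n) := funext fun i => h5 i
      rw [h6]
      by_cases h7 : v * Complex.exp (lf b (pt ω (q, p, n))) ∈ Lt
      · exact Or.inr (hex _ h7)
      · exact Or.inl h7

end Pool.Agent.D0H63.TW
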