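import Pool.Agent.D0H63.TW.RatRed

set_option autoImplicit false

/-! Rational approximations with exceptional numerators. -/

namespace Pool.Agent.D0H63.TW

open Filter MeasureTheory Finset

theorem psi_le {ψ : ℕ → ℝ} (hψ : ∀ q, 0 ≤ ψ q) {θ : ℝ} (hθ0 : 0 < θ) (hθ : θ < 1)
    (hsum : Summable fun q : ℕ => (q : ℝ) * ψ q * (Real.log q) ^ (-θ)) : Tendsto ψ atTop (nhds 0) := by
  refine squeeze_zero' (Eventually.of_forall hψ) ?_ hsum.tendsto_atTop_zero
  filter_upwards [eventually_ge_atTop 3] with q hq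
  have hq3 : (3 : ℝ) ≤ q := by exact_mod_cast hq
  have h1 : 1 ≤ Real.log q := by
    rw [Real.le_log_iff_exp_le (by linarith)]
    have := Real.exp_one_lt_d9
    linarith
  have h2 : (Real.log q) ^ θ ≤ q := by
    calc (Real.log q) ^ θ ≤ (Real.log q) ^ (1 : ℝ) := Real.rpow_le_rpow_of_exponent_le h1 hθ.le
      _ = Real.log q := Real.rpow_one _
      _ ≤ q := by
          have := Real.log_le_sub_one_of_pos (show (0 : ℝ) < q by linarith)
          linarith
  have h3 : 0 < (Real.log q) ^ θ := Real.rpow_pos_of_pos (by linarith) _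
  rw [Real.rpow_neg (by linarith)]
  have h4 : 1 ≤ (q : ℝ) * ((Real.log q) ^ θ)⁻¹ := by
    rw [← div_eq_mul_inv, one_le_div h3]
    exact h2
  have := mul_le_mul_of_nonneg_left h4 (hψ q)
  linarith [this]

theorem rat_metric {S : Set (ℕ × ℕ)} (hS : LogThinR S) {ψ : ℕ → ℝ} (hψ : ∀ q, 0 ≤ ψ q) {θ : ℝ} (hθ0 : 0 < θ)
    (hθ : θ < 1) (hsum : Summable fun q : ℕ => (q : ℝ) * ψ q * (Real.log q) ^ (-θ)) :
    ∀ᵐ ξ : ℝ, ∀ᶠ q : ℕ in atTop, ∀ p : ℕ, 1 ≤ p → |ξ - (p : ℝ) / q| ≤ ψ q → (p, q) ∉ S := by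
  classical
  obtain ⟨C, hC⟩ := hS
  obtain ⟨X₀, hX₀⟩ := log_log_le C hθ
  obtain ⟨q₁, hq₁⟩ := eventually_atTop.1 ((psi_le hψ hθ0 hθ hsum).eventually (gt_mem_nhds (show (0 : ℝ) < 1 by norm_num)))
  have key : ∀ M : ℕ, ∀ᵐ ξ : ℝ, ∀ᶠ q : ℕ in atTop, ξ ≤ M → ∀ p : ℕ, 1 ≤ p → |ξ - (p : ℝ) / q| ≤ ψ q → (p, q) ∉ S := by
    intro M
    let q₀ := max (max q₁ X₀) 16
    let s : ℕ → Set ℝ := fun q => if q₀ ≤ q then
      {ξ : ℝ | ξ ≤ M ∧ ∃ p : ℕ, 1 ≤ p ∧ |ξ - (p : ℝ) / q| ≤ ψ q ∧ (p, q) ∈ S} else ∅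
    have hs : ∀ q, volume (s q) ≤ ENNReal.ofReal (2 * C * (M + 1) * ((q : ℝ) * ψ q * (Real.log q) ^ (-θ))) := by
      intro q
      by_cases hq : q₀ ≤ q
      · have h1 : q₁ ≤ q := ((le_max_left _ _).trans (le_max_left _ _)).trans hq
        have h2 : X₀ ≤ q := ((le_max_right _ _).trans (le_max_left _ _)).trans hq
        have h3 : 16 ≤ q := (le_max_right _ _).trans hq
        have hq0 : (0 : ℝ) < q := by
          have : 0 < q := by omega
          exact_mod_cast this
        have h4 := hq₁ q h1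
        obtain ⟨N, hN⟩ : ∃ N : ℕ, N = (M + 1) * q := ⟨_, rfl⟩
        have hNq : q ≤ N := by
          rw [hN]
          exact Nat.le_mul_of_pos_left _ (by omega)
        obtain ⟨P, hP⟩ : ∃ P : Finset ℕ, P = (Finset.Icc 1 N).filter fun n : ℕ => (n, q) ∈ S := ⟨_, rfl⟩
        have hcard : (P.card : ℝ) ≤ C * (M + 1) * (q * (Real.log q) ^ (-θ)) := by
          have h5 := hC q (by omega) N (by omega)
          have h6 := hX₀ N (by omega)
          have h7 : (Real.log N) ^ (-θ) ≤ (Real.log q) ^ (-θ) := by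
            have hq1 : (1 : ℝ) < q := by
              have : 1 < q := by omega
              exact_mod_cast this
            apply Real.rpow_le_rpow_of_nonpos (Real.log_pos hq1) ?_ (by linarith)
            exact Real.log_le_log hq0 (by exact_mod_cast hNq)
          have hN' : (N : ℝ) = (M + 1) * q := by rw [hN]; push_cast; ring
          have hC0 : (0 : ℝ) ≤ C := Nat.cast_nonneg C
          have hN0 : (0 : ℝ) ≤ N := Nat.cast_nonneg N
          rw [hP]
          calc _ ≤ (C : ℝ) * Real.log (Real.log N) ^ C / Real.log N * N := h5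
            _ = (C : ℝ) * N * (Real.log (Real.log N) ^ C / Real.log N) := by ring
            _ ≤ (C : ℝ) * N * (Real.log q) ^ (-θ) := mul_le_mul_of_nonneg_left (h6.trans h7) (by positivity)
            _ = _ := by rw [hN']; ring
        have hsub : s q ⊆ ⋃ p ∈ P, Set.Icc ((p : ℝ) / q - ψ q) ((p : ℝ) / q + ψ q) := by
          intro ξ hξ
          simp only [s, if_pos hq] at hξ
          obtain ⟨h5, p, h6, h7, h8⟩ := hξ
          have h9 := abs_le.1 h7
          rw [Set.mem_iUnion₂]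
          refine ⟨p, ?_, ⟨by linarith [h9.1], by linarith [h9.2]⟩⟩
          rw [hP, mem_filter, mem_Icc]
          refine ⟨⟨h6, ?_⟩, h8⟩
          have h10 : (p : ℝ) / q ≤ M + 1 := by linarith [h9.1]
          rw [div_le_iff₀ hq0] at h10
          rw [hN]
          exact_mod_cast h10
        calc volume (s q) ≤ volume (⋃ p ∈ P, Set.Icc ((p : ℝ) / q - ψ q) ((p : ℝ) / q + ψ q)) := measure_mono hsub
          _ ≤ ∑ p ∈ P, volume (Set.Icc ((p : ℝ) / q - ψ q) ((p : ℝ) / q + ψ q)) := measure_biUnion_finset_le _ _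
          _ = ∑ p ∈ P, ENNReal.ofReal (2 * ψ q) := by
              refine Finset.sum_congr rfl fun p _ => ?_
              rw [Real.volume_Icc]
              congr 1
              ring
          _ = ENNReal.ofReal (P.card * (2 * ψ q)) := by
              rw [Finset.sum_const, nsmul_eq_mul, ENNReal.ofReal_mul (Nat.cast_nonneg _), ENNReal.ofReal_natCast]
          _ ≤ _ := by
              apply ENNReal.ofReal_le_ofReal
              have := mul_le_mul_of_nonneg_right hcard (show 0 ≤ 2 * ψ q by linarith [hψ q])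
              refine this.trans (le_of_eq ?_)
              ring
      · simp only [s, if_neg hq, measure_empty]
        exact bot_le
    have hfin : ∑' q, volume (s q) ≠ ⊤ := by
      have hsum' := hsum.mul_left (2 * (C : ℝ) * ((M : ℝ) + 1))
      refine ne_top_of_le_ne_top hsum'.tsum_ofReal_ne_top ?_
      exact ENNReal.tsum_le_tsum hs
    filter_upwards [ae_eventually_notMem hfin] with ξ hξ
    filter_upwards [hξ, eventually_ge_atTop q₀] with q h1 h2 h3 p h4 h5 h6
    apply h1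
    simp only [s, if_pos h2]
    exact ⟨h3, p, h4, h5, h6⟩
  have h := (ae_all_iff.2 key)
  filter_upwards [h] with ξ hξ
  obtain ⟨M, hM⟩ := exists_nat_ge ξ
  filter_upwards [hξ M] with q hq
  exact hq hM

/-- the series `∑ 1 / (q (log q) ^ s)` -/
theorem sum_log {s : ℝ} (hs : 1 < s) : Summable fun q : ℕ => (q : ℝ)⁻¹ * (Real.log q) ^ (-s) := by
  have hg : Summable fun n : ℕ => (n : ℝ)⁻¹ * (Real.log (n + 1)) ^ (-s) := by
    rw [← summable_condensed_iff_of_nonneg]
    · have h1 : Summable fun k : ℕ => ((k : ℝ) * Real.log 2) ^ (-s) := by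
        have h2 : Summable fun k : ℕ => (k : ℝ) ^ (-s) := Real.summable_nat_rpow.2 (by linarith)
        refine (h2.mul_right ((Real.log 2) ^ (-s))).congr fun k => ?_
        rw [Real.mul_rpow (Nat.cast_nonneg k) (Real.log_nonneg (by norm_num))]
      refine Summable.of_norm_bounded_eventually_nat h1 ?_
      filter_upwards [eventually_ge_atTop 1] with k hk
      have hk0 : (0 : ℝ) < k := by
        have : 0 < k := hk
        exact_mod_cast this
      have hl2 : 0 < Real.log 2 := Real.log_pos (by norm_num)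
      have h2k : (0 : ℝ) < 2 ^ k := by positivity
      have h3 : (k : ℝ) * Real.log 2 ≤ Real.log ((2 : ℝ) ^ k + 1) := by
        rw [← Real.log_pow]
        exact Real.log_le_log h2k (by linarith)
      have h4 : (Real.log ((2 : ℝ) ^ k + 1)) ^ (-s) ≤ ((k : ℝ) * Real.log 2) ^ (-s) :=
        Real.rpow_le_rpow_of_nonpos (by positivity) h3 (by linarith)
      have h5 : 0 ≤ (Real.log ((2 : ℝ) ^ k + 1)) ^ (-s) := Real.rpow_nonneg (le_trans (by positivity) h3) _
      push_cast
      rw [← mul_assoc, mul_inv_cancel₀ h2k.ne', one_mul, Real.norm_of_nonneg h5]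
      exact h4
    · intro n
      have : 0 ≤ Real.log ((n : ℝ) + 1) := Real.log_nonneg (by
        have : (0 : ℝ) ≤ n := Nat.cast_nonneg n
        linarith)
      positivity
    · intro m n hm hmn
      have hm0 : (0 : ℝ) < m := by exact_mod_cast hm
      have hmn' : (m : ℝ) ≤ n := by exact_mod_cast hmn
      have h1 : 0 < Real.log ((m : ℝ) + 1) := Real.log_pos (by linarith)
      have h2 : Real.log ((m : ℝ) + 1) ≤ Real.log ((n : ℝ) + 1) := Real.log_le_log (by linarith) (by linarith)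
      have h3 : (Real.log ((n : ℝ) + 1)) ^ (-s) ≤ (Real.log ((m : ℝ) + 1)) ^ (-s) :=
        Real.rpow_le_rpow_of_nonpos h1 h2 (by linarith)
      have h4 : (n : ℝ)⁻¹ ≤ (m : ℝ)⁻¹ := inv_anti₀ hm0 hmn'
      exact mul_le_mul h4 h3 (Real.rpow_nonneg (by linarith) _) (by positivity)
  refine Summable.of_norm_bounded_eventually_nat (hg.mul_left (2 ^ s)) ?_
  filter_upwards [eventually_ge_atTop 2] with n hn
  have hn2 : (2 : ℝ) ≤ n := by exact_mod_cast hn
  have h1 : 0 < Real.log n := Real.log_pos (by linarith)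
  have h2 : Real.log ((n : ℝ) + 1) ≤ 2 * Real.log n := by
    rw [← Nat.cast_ofNat (n := 2), ← Real.log_pow]
    apply Real.log_le_log (by linarith)
    nlinarith
  have h3 : 0 < Real.log ((n : ℝ) + 1) := Real.log_pos (by linarith)
  have h4 : (Real.log n) ^ (-s) ≤ 2 ^ s * (Real.log ((n : ℝ) + 1)) ^ (-s) := by
    have h5 : (2 * Real.log n) ^ (-s) ≤ (Real.log ((n : ℝ) + 1)) ^ (-s) :=
      Real.rpow_le_rpow_of_nonpos h3 h2 (by linarith)
    rw [Real.mul_rpow (by norm_num) h1.le, Real.rpow_neg (by norm_num : (0 : ℝ) ≤ 2)] at h5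
    rwa [inv_mul_le_iff₀ (by positivity)] at h5
  have h5 : 0 ≤ (Real.log n) ^ (-s) := Real.rpow_nonneg h1.le _
  rw [Real.norm_of_nonneg (by positivity)]
  calc (n : ℝ)⁻¹ * (Real.log n) ^ (-s) ≤ (n : ℝ)⁻¹ * (2 ^ s * (Real.log ((n : ℝ) + 1)) ^ (-s)) :=
        mul_le_mul_of_nonneg_left h4 (by positivity)
    _ = _ := by ring

end Pool.Agent.D0H63.TW
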