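import Pool.Agent.D0H63.TW.Red

set_option autoImplicit false

/-! Generalized towers at rational arguments. -/

namespace Pool.Agent.D0H63.TW

open Polynomial
open Pool.Agent.Results.MP_93d8d2_nt.GeneralizedTowers (LogForms F Trivial)

variable {m : ℕ}

/-- `F(x) = ∑ x ^ {c_i} B_i(log x)` for real `x` -/
noncomputable def Fr (c : Fin m → ℂ) (B : Fin m → ℂ[X]) (x : ℝ) : ℂ :=
  ∑ i, Complex.exp (c i * ((Real.log x : ℝ) : ℂ)) * (B i).eval ((Real.log x : ℝ) : ℂ)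

theorem Fr_nat (c : Fin m → ℂ) (B : Fin m → ℂ[X]) (n : ℕ) : Fr c B n = F c B n := rfl

/-- the coefficients for the denominator `q` -/
noncomputable def Bq (c : Fin m → ℂ) (B : Fin m → ℂ[X]) (q : ℕ) : Fin m → ℂ[X] :=
  fun i => C (Complex.exp (-(c i * ((Real.log q : ℝ) : ℂ)))) * taylor (-((Real.log q : ℝ) : ℂ)) (B i)

theorem Fr_div (c : Fin m → ℂ) (B : Fin m → ℂ[X]) {p q : ℕ} (hp : 1 ≤ p) (hq : 1 ≤ q) :
    Fr c B ((p : ℝ) / q) = F c (Bq c B q) p := by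
  have hp0 : (p : ℝ) ≠ 0 := by
    have : 0 < p := hp
    positivity
  have hq0 : (q : ℝ) ≠ 0 := by
    have : 0 < q := hq
    positivity
  unfold Fr F Bq
  refine Finset.sum_congr rfl fun i _ => ?_
  rw [Real.log_div hp0 hq0, eval_mul, eval_C, taylor_eval]
  push_cast
  rw [mul_sub, sub_eq_add_neg (c i * Complex.log p), Complex.exp_add, ← sub_eq_add_neg, mul_assoc]

theorem Bq_degree (c : Fin m → ℂ) {B : Fin m → ℂ[X]} {D : ℕ} (hB : ∀ i, (B i).degree < D) (q : ℕ) (i : Fin m) :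
    (Bq c B q i).degree < D := by
  unfold Bq
  rw [degree_C_mul (Complex.exp_ne_zero _), degree_taylor]
  exact hB i

theorem algebraic_mul_mem {a z : ℂ} (ha : IsAlgebraic ℚ a) (hz : z ∈ LogForms) : a * z ∈ LogForms := by
  have h := LogForms.smul_mem (⟨a, mem_algebraicClosure_iff.2 ha⟩ : algebraicClosure ℚ ℂ) hz
  exact h

theorem log_mem {q : ℕ} (hq : 1 ≤ q) : ((Real.log q : ℝ) : ℂ) ∈ LogForms := by
  refine Submodule.subset_span (Or.inr ?_)
  show IsAlgebraic ℚ (Complex.exp ((Real.log q : ℝ) : ℂ))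
  have hq0 : (0 : ℝ) < q := by
    have : 0 < q := hq
    exact_mod_cast this
  rw [← Complex.ofReal_exp, Real.exp_log hq0, Complex.ofReal_natCast]
  exact isAlgebraic_natCast q

theorem pow_alg {q : ℕ} (hq : 1 ≤ q) {r : ℚ} {c : ℂ} (hc : c = r) :
    IsAlgebraic ℚ (Complex.exp (c * ((Real.log q : ℝ) : ℂ))) := by
  have hq0 : (0 : ℝ) < q := by
    have : 0 < q := hq
    exact_mod_cast this
  have h1 : (Complex.exp (c * ((Real.log q : ℝ) : ℂ))) ^ r.den = ((q : ℂ)) ^ r.num := by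
    rw [← Complex.exp_nat_mul, hc]
    have h2 : (r.den : ℂ) * ((r : ℂ) * ((Real.log q : ℝ) : ℂ)) = (r.num : ℂ) * ((Real.log q : ℝ) : ℂ) := by
      have h3 : (r.den : ℂ) * (r : ℂ) = (r.num : ℂ) := by
        have h4 : (r.den : ℚ) * r = r.num := by
          rw [mul_comm]
          exact Rat.mul_den_eq_num r
        exact_mod_cast congrArg (Rat.cast (K := ℂ)) h4
      rw [← mul_assoc, h3]
    rw [h2, Complex.exp_int_mul, ← Complex.ofReal_exp, Real.exp_log hq0, Complex.ofReal_natCast]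
  have h2 : IsAlgebraic ℚ ((Complex.exp (c * ((Real.log q : ℝ) : ℂ))) ^ r.den) := by
    rw [h1]
    rw [← mem_algebraicClosure_iff (F := ℚ) (E := ℂ)]
    exact zpow_mem (mem_algebraicClosure_iff.2 (isAlgebraic_natCast q)) _
  exact IsAlgebraic.of_pow r.den_pos h2

theorem Bq_trivial (c : Fin m → ℂ) (B : Fin m → ℂ[X]) {q : ℕ} (hq : 1 ≤ q) (h : Trivial c (Bq c B q)) : Trivial c B := by
  intro i
  obtain ⟨h1, h2⟩ := h i
  refine ⟨fun hi => ?_, fun hi => ?_⟩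
  · have h3 := h1 hi
    unfold Bq at h3
    rw [mul_eq_zero] at h3
    rcases h3 with h3 | h3
    · exact absurd (C_eq_zero.1 h3) (Complex.exp_ne_zero _)
    · exact (map_eq_zero_iff _ (taylor_injective _)).1 h3
  · obtain ⟨g1, g2, g3⟩ := h2 hi
    obtain ⟨r, hr⟩ := hi
    obtain ⟨e, he⟩ : ∃ e : ℂ, e = Complex.exp (-(c i * ((Real.log q : ℝ) : ℂ))) := ⟨_, rfl⟩
    obtain ⟨T, hT⟩ : ∃ T : ℂ[X], T = taylor (-((Real.log q : ℝ) : ℂ)) (B i) := ⟨_, rfl⟩
    have he0 : e ≠ 0 := by rw [he]; exact Complex.exp_ne_zero _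
    have hei : IsAlgebraic ℚ e⁻¹ := by
      rw [he, ← Complex.exp_neg, neg_neg]
      exact pow_alg hq hr
    have hBq : Bq c B q i = C e * T := by
      unfold Bq
      rw [he, hT]
    rw [hBq, coeff_C_mul] at g1 g2
    have hT0 : T.coeff 0 ∈ LogForms := by
      have := algebraic_mul_mem hei g1
      rwa [← mul_assoc, inv_mul_cancel₀ he0, one_mul] at this
    have hT1 : IsAlgebraic ℚ (T.coeff 1) := by
      have := hei.mul g2
      rwa [← mul_assoc, inv_mul_cancel₀ he0, one_mul] at this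
    have hT2 : ∀ k, 2 ≤ k → T.coeff k = 0 := by
      intro k hk
      have := g3 k hk
      rw [hBq, coeff_C_mul] at this
      exact (mul_eq_zero.1 this).resolve_left he0
    have hTeq : T = C (T.coeff 0) + C (T.coeff 1) * X := by
      ext k
      rcases k with _ | _ | k
      · simp
      · simp [coeff_C]
      · rw [hT2 (k + 2) (by omega)]
        simp [coeff_C, coeff_X]
    have hBi : B i = C (T.coeff 0 + T.coeff 1 * ((Real.log q : ℝ) : ℂ)) + C (T.coeff 1) * X := by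
      have h3 : B i = taylor ((Real.log q : ℝ) : ℂ) T := by
        rw [hT, taylor_taylor, add_neg_cancel, taylor_zero]
      rw [h3]
      conv_lhs => rw [hTeq]
      simp only [map_add, taylor_mul, taylor_C, taylor_X, C_mul]
      ring
    refine ⟨?_, ?_, ?_⟩
    · rw [hBi]
      simp only [coeff_add, coeff_C_zero, coeff_C_mul, coeff_X_zero, mul_zero, add_zero]
      exact LogForms.add_mem hT0 (algebraic_mul_mem hT1 (log_mem hq))
    · rw [hBi]
      simp only [coeff_add, coeff_C_mul, coeff_X_one, mul_one, coeff_C_succ, zero_add]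
      exact hT1
    · intro k hk
      obtain ⟨k', rfl⟩ : ∃ k', k = k' + 2 := ⟨k - 2, by omega⟩
      rw [hBi]
      simp [coeff_C, coeff_X]

/-- the weights of the coefficients -/
noncomputable def Wr (c : Fin m → ℂ) (D : ℕ) (x : ℝ) : Fin m × Fin D → ℂ :=
  fun p => Complex.exp (c p.1 * ((Real.log x : ℝ) : ℂ)) * ((Real.log x : ℝ) : ℂ) ^ (p.2 : ℕ)

theorem Fr_eq (c : Fin m → ℂ) {D : ℕ} {B : Fin m → ℂ[X]} (hB : ∀ i, (B i).degree < D) (x : ℝ) :
    Fr c B x = ∑ p : Fin m × Fin D, (B p.1).coeff p.2 * Wr c D x p := by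
  unfold Fr Wr
  rw [Fintype.sum_prod_type]
  refine Finset.sum_congr rfl fun i _ => ?_
  have h1 : (B i).eval ((Real.log x : ℝ) : ℂ) = ∑ k : Fin D, (B i).coeff k * ((Real.log x : ℝ) : ℂ) ^ (k : ℕ) := by
    rw [Fin.sum_univ_eq_sum_range fun k => (B i).coeff k * ((Real.log x : ℝ) : ℂ) ^ k]
    rcases Nat.eq_zero_or_pos D with h0 | h0
    · subst h0
      have h2 : B i = 0 := by
        rw [← Polynomial.degree_eq_bot]
        have := hB i
        rw [Nat.cast_zero] at this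
        by_contra h3
        rw [Polynomial.degree_eq_natDegree (fun h => h3 (by rw [h, Polynomial.degree_zero]))] at this
        exact absurd this (by simp)
      rw [h2]
      simp
    · refine Polynomial.eval_eq_sum_range' ?_ _
      by_cases hBi : B i = 0
      · rw [hBi, Polynomial.natDegree_zero]
        exact h0
      · exact (Polynomial.natDegree_lt_iff_degree_lt hBi).2 (hB i)
  rw [h1, Finset.mul_sum]
  refine Finset.sum_congr rfl fun k _ => ?_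
  ring

/-- `B` solves the finite system `F(p / q) = l`, `((p, q), l)` in `d` -/
def SolR (c : Fin m → ℂ) (D : ℕ) (d : Finset ((ℕ × ℕ) × LogForms)) (B : Fin m → ℂ[X]) : Prop :=
  (∀ i, (B i).degree < D) ∧ ¬ Trivial c B ∧ ∀ p ∈ d, Fr c B ((p.1.1 : ℝ) / p.1.2) = p.2

open Classical in
/-- the countable family -/
noncomputable def QR (E : Set ℂ) (j : Σ m : ℕ, ℕ × (Fin m → E) × Finset ((ℕ × ℕ) × LogForms)) : Set (ℕ × ℕ) :=
  if h : (Function.Injective fun i => ((j.2.2.1 i : E) : ℂ)) ∧ ∃ B, SolR (fun i => ((j.2.2.1 i : E) : ℂ)) j.2.1 j.2.2.2 B then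
    {n : ℕ × ℕ | Fr (fun i => ((j.2.2.1 i : E) : ℂ)) h.2.choose ((n.1 : ℝ) / n.2) ∈ LogForms} else ∅

open Classical in
/-- for every denominator `q`, at most `C N (log log N) ^ C / log N` numerators between `1` and `N` -/
def LogThinR (S : Set (ℕ × ℕ)) : Prop :=
  ∃ C : ℕ, ∀ q : ℕ, 1 ≤ q → ∀ N : ℕ, 16 ≤ N → (((Finset.Icc 1 N).filter fun n : ℕ => (n, q) ∈ S).card : ℝ) ≤
    C * Real.log (Real.log N) ^ C / Real.log N * N

theorem QR_thin (E : Set ℂ) (j : Σ m : ℕ, ℕ × (Fin m → E) × Finset ((ℕ × ℕ) × LogForms)) : LogThinR (QR E j) := by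
  classical
  by_cases h : (Function.Injective fun i => ((j.2.2.1 i : E) : ℂ)) ∧
      ∃ B, SolR (fun i => ((j.2.2.1 i : E) : ℂ)) j.2.1 j.2.2.2 B
  · obtain ⟨C, hC⟩ := Pool.Agent.Results.MP_93d8d2_nt.GeneralizedTowers.result.1 j.1 j.2.1
    refine ⟨C, fun q hq N hN => ?_⟩
    obtain ⟨c, hc⟩ : ∃ c, c = fun i => ((j.2.2.1 i : E) : ℂ) := ⟨_, rfl⟩
    have h1 := (hC _ h.1 (Bq (fun i => ((j.2.2.1 i : E) : ℂ)) h.2.choose q) (Bq_degree _ h.2.choose_spec.1 q)).2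
      (fun ht => h.2.choose_spec.2.1 (Bq_trivial _ _ hq ht)) N hN
    refine le_trans (Nat.cast_le.2 (Finset.card_le_card ?_)) h1
    intro n hn
    rw [Finset.mem_filter] at hn ⊢
    refine ⟨hn.1, ?_⟩
    have h2 := hn.2
    unfold QR at h2
    rw [dif_pos h] at h2
    have h3 := Fr_div (fun i => ((j.2.2.1 i : E) : ℂ)) h.2.choose (Finset.mem_Icc.1 hn.1).1 hq
    rw [← h3]
    exact h2
  · refine ⟨0, fun q hq N hN => ?_⟩
    unfold QR
    rw [dif_neg h]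
    simp

/-- the exceptional set of `B` is contained in one of the sets of the countable family -/
theorem exists_idxR (E : Set ℂ) (c : Fin m → ℂ) (hc : Function.Injective c) (hE : ∀ i, c i ∈ E) (B : Fin m → ℂ[X])
    (hB : ¬ Trivial c B) : ∃ j : Σ m : ℕ, ℕ × (Fin m → E) × Finset ((ℕ × ℕ) × LogForms), ∀ n : ℕ × ℕ,
      Fr c B ((n.1 : ℝ) / n.2) ∈ LogForms → n ∈ QR E j := by
  classical
  obtain ⟨D, hD⟩ := exists_bound B
  -- finitely many points
  let w : ℕ × ℕ → Fin m × Fin D → ℂ := fun n => Wr c D ((n.1 : ℝ) / n.2)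
  have h1 : (Submodule.span ℂ (w '' {n : ℕ × ℕ | Fr c B ((n.1 : ℝ) / n.2) ∈ LogForms})).FG := IsNoetherian.noetherian _
  obtain ⟨t, ht, hspan⟩ := (Submodule.fg_span_iff_fg_span_finset_subset _).1 h1
  obtain ⟨s, hs, rfl⟩ := Finset.subset_set_image_iff.1 ht
  let d : Finset ((ℕ × ℕ) × LogForms) := s.attach.image fun n => (n.1, ⟨Fr c B ((n.1.1 : ℝ) / n.1.2), hs n.2⟩)
  have hsol : SolR c D d B := by
    refine ⟨hD, hB, fun p hp => ?_⟩
    obtain ⟨n, -, rfl⟩ := Finset.mem_image.1 hp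
    rfl
  refine ⟨⟨m, D, fun i => ⟨c i, hE i⟩, d⟩, fun n hn => ?_⟩
  have h : (Function.Injective fun i => ((⟨c i, hE i⟩ : E) : ℂ)) ∧
      ∃ B, SolR (fun i => ((⟨c i, hE i⟩ : E) : ℂ)) D d B := ⟨hc, B, hsol⟩
  unfold QR
  rw [dif_pos h]
  obtain ⟨g1, g2, g3⟩ := h.2.choose_spec
  obtain ⟨B', hB'⟩ : ∃ B', B' = h.2.choose := ⟨_, rfl⟩
  rw [← hB'] at g1 g2 g3 ⊢
  show Fr c B' ((n.1 : ℝ) / n.2) ∈ LogForms
  -- the functional
  let φ : (Fin m × Fin D → ℂ) →ₗ[ℂ] ℂ :=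
    { toFun := fun v => ∑ p, ((B p.1).coeff p.2 - (B' p.1).coeff p.2) * v p
      map_add' := fun v w => by
        simp only [Pi.add_apply, mul_add, Finset.sum_add_distrib]
      map_smul' := fun a v => by
        simp only [Pi.smul_apply, smul_eq_mul, Finset.mul_sum, RingHom.id_apply]
        exact Finset.sum_congr rfl fun p _ => by ring }
  have hφ : ∀ k : ℕ × ℕ, φ (w k) = Fr c B ((k.1 : ℝ) / k.2) - Fr c B' ((k.1 : ℝ) / k.2) := by
    intro k
    rw [Fr_eq c hD, Fr_eq c g1, ← Finset.sum_sub_distrib]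
    exact Finset.sum_congr rfl fun p _ => by ring
  have hker : Submodule.span ℂ (w '' {n : ℕ × ℕ | Fr c B ((n.1 : ℝ) / n.2) ∈ LogForms}) ≤ LinearMap.ker φ := by
    rw [hspan, Submodule.span_le]
    intro v hv
    rw [Finset.coe_image] at hv
    obtain ⟨k, hk, rfl⟩ := hv
    rw [SetLike.mem_coe, LinearMap.mem_ker, hφ, sub_eq_zero]
    have h3 := g3 (k, ⟨Fr c B ((k.1 : ℝ) / k.2), hs hk⟩)
      (Finset.mem_image.2 ⟨⟨k, hk⟩, Finset.mem_attach _ _, rfl⟩)
    exact h3.symm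
  have h4 := hker (Submodule.subset_span ⟨n, hn, rfl⟩)
  rw [LinearMap.mem_ker, hφ, sub_eq_zero] at h4
  rw [← h4]
  exact hn

/-- the exponents `c` for which some `v x ^ c`, `v ≠ 0`, has two exceptional rational arguments -/
def CSetR : Set ℂ :=
  {c | ∃ x y : ℚ, 0 < x ∧ 0 < y ∧ x ≠ y ∧ ∃ l l' : ℂ, l ∈ LogForms ∧ l' ∈ LogForms ∧
    Complex.exp (c * ((Real.log x : ℝ) : ℂ) - c * ((Real.log y : ℝ) : ℂ)) = l / l'}

theorem countable_CSetR : CSetR.Countable := by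
  have h0 := countable_logForms.to_subtype
  have h1 : CSetR ⊆ ⋃ p : (ℚ × ℚ) × (LogForms × LogForms),
      {c : ℂ | 0 < p.1.1 ∧ 0 < p.1.2 ∧ p.1.1 ≠ p.1.2 ∧
        Complex.exp (c * ((Real.log p.1.1 : ℝ) : ℂ) - c * ((Real.log p.1.2 : ℝ) : ℂ)) = p.2.1 / p.2.2} := by
    rintro c ⟨x, y, h1, h2, h3, l, l', hl, hl', h⟩
    exact Set.mem_iUnion.2 ⟨((x, y), (⟨l, hl⟩, ⟨l', hl'⟩)), h1, h2, h3, h⟩
  refine Set.Countable.mono h1 (Set.countable_iUnion fun p => ?_)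
  by_cases hp : 0 < p.1.1 ∧ 0 < p.1.2 ∧ p.1.1 ≠ p.1.2
  · have ht : ((Real.log p.1.1 : ℝ) : ℂ) - ((Real.log p.1.2 : ℝ) : ℂ) ≠ 0 := by
      rw [sub_ne_zero]
      intro h
      have h2 : Real.log p.1.1 = Real.log p.1.2 := by exact_mod_cast h
      apply hp.2.2
      have h3 := Real.log_injOn_pos (Set.mem_Ioi.2 (Rat.cast_pos.2 hp.1)) (Set.mem_Ioi.2 (Rat.cast_pos.2 hp.2.1)) h2
      exact_mod_cast h3
    have h2 := countable_exp (Set.countable_singleton ((p.2.1 : ℂ) / p.2.2))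
    refine (h2.preimage_of_injOn (f := fun c : ℂ => c * (((Real.log p.1.1 : ℝ) : ℂ) - ((Real.log p.1.2 : ℝ) : ℂ)))
      (fun a _ b _ h => mul_right_cancel₀ ht h)).mono ?_
    rintro c ⟨-, -, -, h⟩
    show Complex.exp (c * (((Real.log p.1.1 : ℝ) : ℂ) - ((Real.log p.1.2 : ℝ) : ℂ))) ∈ ({(p.2.1 : ℂ) / p.2.2} : Set ℂ)
    rw [mul_sub]
    exact h
  · refine Set.countable_empty.mono ?_
    rintro c ⟨h2, h3, h4, -⟩
    exact hp ⟨h2, h3, h4⟩

theorem mem_CSetR {v c : ℂ} (hv : v ≠ 0) {x y : ℚ} (hx : 0 < x) (hy : 0 < y) (hne : x ≠ y)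
    (h : v * Complex.exp (c * ((Real.log x : ℝ) : ℂ)) ∈ LogForms)
    (h' : v * Complex.exp (c * ((Real.log y : ℝ) : ℂ)) ∈ LogForms) : c ∈ CSetR := by
  refine ⟨x, y, hx, hy, hne, _, _, h, h', ?_⟩
  rw [Complex.exp_sub, mul_div_mul_left _ _ hv]

end Pool.Agent.D0H63.TW
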