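import Pool.Agent.R482.ST.Mills

set_option autoImplicit false

/-! Sets of natural numbers with at most `C N (log log N) ^ C / log N` members up to `N`, near the values of starshaped
functions. -/

namespace Pool.Agent.D0H63.TW

open Filter MeasureTheory Finset
open Pool.Agent.R482.ST (Star star_density slow_count slow_pow tend_of_sum)

open Classical in
/-- at most `C N (log log N) ^ C / log N` members between `1` and `N` -/
def LogThin (S : Set ℕ) : Prop :=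
  ∃ C : ℕ, ∀ N : ℕ, 16 ≤ N → (((Finset.Icc 1 N).filter fun n : ℕ => n ∈ S).card : ℝ) ≤
    C * Real.log (Real.log N) ^ C / Real.log N * N

theorem log_log_le (C : ℕ) {δ : ℝ} (hδ : δ < 1) : ∃ X₀ : ℕ, ∀ X : ℕ, X₀ ≤ X →
    Real.log (Real.log X) ^ C / Real.log X ≤ (Real.log X) ^ (-δ) := by
  have h1 := (isLittleO_log_rpow_rpow_atTop (C : ℝ) (show (0 : ℝ) < 1 - δ by linarith)).def (show (0 : ℝ) < 1 by norm_num)
  have h2 : Tendsto (fun X : ℕ => Real.log (X : ℝ)) atTop atTop := Real.tendsto_log_atTop.comp tendsto_natCast_atTop_atTop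
  have h3 := h2.eventually h1
  obtain ⟨X₀, hX⟩ := eventually_atTop.1 (h3.and (h2.eventually_ge_atTop 1))
  refine ⟨X₀, fun X hX0 => ?_⟩
  obtain ⟨h4, h5⟩ := hX X hX0
  have h6 : (0 : ℝ) < Real.log X := by linarith
  have h7 : 0 ≤ Real.log (Real.log X) := Real.log_nonneg h5
  rw [Real.norm_of_nonneg (Real.rpow_nonneg h7 _), Real.norm_of_nonneg (Real.rpow_nonneg h6.le _), one_mul,
    Real.rpow_natCast] at h4
  rw [div_le_iff₀ h6]
  refine h4.trans (le_of_eq ?_)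
  rw [← Real.rpow_add_one h6.ne']
  congr 1
  ring

theorem thin_count {S : Set ℕ} (hS : LogThin S) {δ : ℝ} (hδ0 : 0 < δ) (hδ : δ < 1) :
    ∃ C' : ℝ, ∀ X : ℝ, 1 ≤ X → {t : ℕ | t ∈ {n : ℕ | 1 ≤ n ∧ n ∈ S} ∧ (t : ℝ) ≤ X}.Finite ∧
      ({t : ℕ | t ∈ {n : ℕ | 1 ≤ n ∧ n ∈ S} ∧ (t : ℝ) ≤ X}.ncard : ℝ) ≤ C' * X * (1 + Real.log X) ^ (-δ) := by
  classical
  obtain ⟨C, hC⟩ := hS
  obtain ⟨X₀, hX⟩ := log_log_le C hδ
  refine slow_count {n : ℕ | 1 ≤ n ∧ n ∈ S} (fun t : ℕ => (t : ℝ)) (fun X => ?_) (C := C) hδ0 (max X₀ 16) (fun X h => ?_)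
  · refine (Set.finite_Iic ⌊X⌋₊).subset ?_
    rintro t ⟨-, ht⟩
    exact Nat.le_floor ht
  · have h1 := hC X ((le_max_right _ _).trans h)
    have h2 := hX X ((le_max_left _ _).trans h)
    have he : {t : ℕ | t ∈ {n : ℕ | 1 ≤ n ∧ n ∈ S} ∧ (t : ℝ) ≤ (X : ℝ)} =
        (((Finset.Icc 1 X).filter fun n : ℕ => n ∈ S : Finset ℕ) : Set ℕ) := by
      ext t
      simp only [Set.mem_ofPred_eq, Finset.coe_filter, Finset.mem_Icc, Nat.cast_le]
      tauto
    rw [he, Set.ncard_coe_finset]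
    have h3 : (0 : ℝ) ≤ X := Nat.cast_nonneg X
    have h4 : (0 : ℝ) ≤ C := Nat.cast_nonneg C
    calc _ ≤ (C : ℝ) * Real.log (Real.log X) ^ C / Real.log X * X := by
          refine le_trans (le_of_eq ?_) h1
          congr
      _ = (C : ℝ) * X * (Real.log (Real.log X) ^ C / Real.log X) := by ring
      _ ≤ _ := mul_le_mul_of_nonneg_left h2 (by positivity)

/-- the conclusion for one set -/
def Avoids (f : ℕ → ℝ → ℝ) (L : ℕ → ℝ) (S : Set ℕ) (x : ℝ) : Prop :=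
  ∃ k₀ : ℕ, ∀ k : ℕ, k₀ ≤ k → ∀ n : ℕ, 1 ≤ n → |(n : ℝ) - f k x| ≤ L k → n ∉ S

theorem star_thin {S : Set ℕ} (hS : LogThin S) {f : ℕ → ℝ → ℝ} {L : ℕ → ℝ} {a δ : ℝ} (ha : 0 ≤ a) (hf : Star a f)
    (hδ0 : 0 < δ) (hδ : δ < 1) (hL : ∀ k, 0 ≤ L k) (hinf : ∀ x : ℝ, a < x → Tendsto (fun k => f k x) atTop atTop)
    (hLf : ∀ x : ℝ, a < x → ∀ᶠ k in atTop, 2 * L k ≤ f k x)
    (hsum : ∀ x y : ℝ, a < x → x ≤ y →
      Summable fun k => L k * (1 + Real.log (f k y / f k x)) * (Real.log (f k x)) ^ (-δ)) :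
    ∃ N : Set ℝ, volume N = 0 ∧ ∀ x : ℝ, a < x → x ∉ N → Avoids f L S x := by
  obtain ⟨C', hC'⟩ := thin_count hS hδ0 hδ
  obtain ⟨N, hN, h⟩ := star_density {n : ℕ | 1 ≤ n ∧ n ∈ S} (fun t : ℕ => (t : ℝ)) ha hf hinf
    (D := fun X => |C'| * (1 + Real.log X) ^ (-δ)) (fun X hX => by
      have := Real.log_nonneg hX
      positivity) (fun X Y hX hXY => by
      have h1 := Real.log_nonneg hX
      have h2 := Real.log_le_log (by linarith) hXY
      exact mul_le_mul_of_nonneg_left (Real.rpow_le_rpow_of_nonpos (by linarith) (by linarith) (by linarith))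
        (abs_nonneg _)) hL hLf (fun x y hx hxy => by
      refine Summable.of_norm_bounded_eventually_nat ((hsum x y hx hxy).mul_left |C'|) ?_
      filter_upwards [(hinf x hx).eventually_ge_atTop 3] with k hk
      have h1 : 0 < Real.log (f k x) := Real.log_pos (by linarith)
      have h2 : 0 ≤ Real.log (f k y / f k x) := by
        apply Real.log_nonneg
        obtain ⟨h3, h4⟩ := hf k x y hx hxy
        have hx0 : 0 < x := by linarith
        rw [one_le_div h3]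
        rw [div_le_div_iff₀ hx0 (by linarith)] at h4
        obtain ⟨h5, -⟩ := hf k y y (by linarith) le_rfl
        nlinarith
      have h3 : Real.log (f k x) ≤ 1 + Real.log (f k x / 2) := by
        rw [Real.log_div (by linarith) (by norm_num)]
        have := Real.log_two_lt_d9
        linarith
      have h4 : (1 + Real.log (f k x / 2)) ^ (-δ) ≤ (Real.log (f k x)) ^ (-δ) :=
        Real.rpow_le_rpow_of_nonpos h1 h3 (by linarith)
      have h5 : 0 ≤ (1 + Real.log (f k x / 2)) ^ (-δ) := Real.rpow_nonneg (by linarith) _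
      have h6 := hL k
      rw [Real.norm_of_nonneg (by positivity)]
      calc |C'| * (1 + Real.log (f k x / 2)) ^ (-δ) * L k * (1 + Real.log (f k y / f k x)) =
            |C'| * (L k * (1 + Real.log (f k y / f k x)) * (1 + Real.log (f k x / 2)) ^ (-δ)) := by ring
        _ ≤ _ := by gcongr) (fun X hX => by
      obtain ⟨h1, h2⟩ := hC' X hX
      refine ⟨h1, h2.trans ?_⟩
      have h3 := Real.log_nonneg hX
      have h4 : 0 ≤ (1 + Real.log X) ^ (-δ) := by positivity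
      calc C' * X * (1 + Real.log X) ^ (-δ) = C' * (X * (1 + Real.log X) ^ (-δ)) := by ring
        _ ≤ |C'| * (X * (1 + Real.log X) ^ (-δ)) := mul_le_mul_of_nonneg_right (le_abs_self _) (by positivity)
        _ = _ := by ring)
  refine ⟨N, hN, fun x hx hxN => ?_⟩
  obtain ⟨k₀, hk⟩ := h x hx hxN
  exact ⟨k₀, fun k h1 n hn h2 h3 => absurd (hk k h1 n ⟨hn, h3⟩) (not_lt.2 h2)⟩

theorem pow_thin {S : Set ℕ} (hS : LogThin S) {v L : ℕ → ℝ} {δ : ℝ} (hδ0 : 0 < δ) (hδ : δ < 1) (hv : ∀ k, 1 ≤ v k)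
    (hL : ∀ k, 1 ≤ L k) (hsum : Summable fun k => L k * (v k) ^ (-δ)) :
    ∃ N : Set ℝ, volume N = 0 ∧ ∀ x : ℝ, 1 < x → x ∉ N → Avoids (fun k x => x ^ v k) L S x := by
  obtain ⟨C', hC'⟩ := thin_count hS hδ0 hδ
  obtain ⟨hinf, hLf⟩ := tend_of_sum hv hL hδ0 hsum
  obtain ⟨N, hN, h⟩ := slow_pow {n : ℕ | 1 ≤ n ∧ n ∈ S} (fun t : ℕ => (t : ℝ)) hδ0 hC' hv
    (fun k => by linarith [hL k]) hLf hinf hsum
  refine ⟨N, hN, fun x hx hxN => ?_⟩
  obtain ⟨k₀, hk⟩ := h x hx hxN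
  exact ⟨k₀, fun k h1 n hn h2 h3 => absurd (hk k h1 n ⟨hn, h3⟩) (not_lt.2 h2)⟩

end Pool.Agent.D0H63.TW
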