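import Pool.Agent.Results.MP_93d8d2_nt.GeneralizedTowers
import Pool.Agent.D0H63.TW.Thin

set_option autoImplicit false

/-! Generalized towers with arbitrary complex coefficients: the exceptional sets are contained in those of a countable
family. -/

namespace Pool.Agent.D0H63.TW

open Polynomial
open Pool.Agent.Results.MP_93d8d2_nt.GeneralizedTowers (LogForms F Trivial)

theorem countable_exp {s : Set ℂ} (hs : s.Countable) : {z : ℂ | Complex.exp z ∈ s}.Countable := by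
  have h1 : {z : ℂ | Complex.exp z ∈ s} ⊆
      ⋃ w ∈ s, ⋃ k : ℤ, {Complex.log w + k * (2 * Real.pi * Complex.I)} := by
    intro z hz
    refine Set.mem_iUnion₂.2 ⟨Complex.exp z, hz, ?_⟩
    have h2 : Complex.exp z = Complex.exp (Complex.log (Complex.exp z)) :=
      (Complex.exp_log (Complex.exp_ne_zero z)).symm
    obtain ⟨k, hk⟩ := Complex.exp_eq_exp_iff_exists_int.1 h2
    exact Set.mem_iUnion.2 ⟨k, hk⟩
  exact (hs.biUnion fun w _ => Set.countable_iUnion fun k => Set.countable_singleton _).mono h1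

theorem countable_logForms : (LogForms : Set ℂ).Countable := by
  have h1 : ({1} ∪ {z : ℂ | IsAlgebraic ℚ (Complex.exp z)} : Set ℂ).Countable :=
    (Set.countable_singleton _).union (countable_exp (Algebraic.countable ℚ ℂ))
  have h2 : Countable ↥(algebraicClosure ℚ ℂ) := by
    have h3 : ((algebraicClosure ℚ ℂ : IntermediateField ℚ ℂ) : Set ℂ).Countable := by
      refine (Algebraic.countable ℚ ℂ).mono ?_
      intro x hx
      exact mem_algebraicClosure_iff.1 hx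
    exact h3.to_subtype
  have h4 : Countable ↑({1} ∪ {z : ℂ | IsAlgebraic ℚ (Complex.exp z)} : Set ℂ) := h1.to_subtype
  unfold LogForms
  rw [Finsupp.span_eq_range_linearCombination]
  exact Set.countable_range _

variable {m : ℕ}

/-- the weights of the coefficients -/
noncomputable def Wt (c : Fin m → ℂ) (D : ℕ) (n : ℕ) : Fin m × Fin D → ℂ :=
  fun p => Complex.exp (c p.1 * ((Real.log n : ℝ) : ℂ)) * ((Real.log n : ℝ) : ℂ) ^ (p.2 : ℕ)

theorem F_eq (c : Fin m → ℂ) {D : ℕ} {B : Fin m → ℂ[X]} (hB : ∀ i, (B i).degree < D) (n : ℕ) :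
    F c B n = ∑ p : Fin m × Fin D, (B p.1).coeff p.2 * Wt c D n p := by
  unfold F Wt
  rw [Fintype.sum_prod_type]
  refine Finset.sum_congr rfl fun i _ => ?_
  have h1 : (B i).eval ((Real.log n : ℝ) : ℂ) = ∑ k : Fin D, (B i).coeff k * ((Real.log n : ℝ) : ℂ) ^ (k : ℕ) := by
    rw [Fin.sum_univ_eq_sum_range fun k => (B i).coeff k * ((Real.log n : ℝ) : ℂ) ^ k]
    rcases Nat.eq_zero_or_pos D with h0 | h0
    · subst h0
      have h2 : B i = 0 := by
        rw [← Polynomial.degree_eq_bot]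
        have := hB i
        rw [Nat.cast_zero] at this
        by_contra h3
        rw [Polynomial.degree_eq_natDegree (fun h => h3 (by rw [h, Polynomial.degree_zero]))] at this
        exact absurd this (by simp)
      rw [h2]
      simp
    · refine Polynomial.eval_eq_sum_range' ?_ _
      by_cases hBi : B i = 0
      · rw [hBi, Polynomial.natDegree_zero]
        exact h0
      · exact (Polynomial.natDegree_lt_iff_degree_lt hBi).2 (hB i)
  rw [h1, Finset.mul_sum]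
  refine Finset.sum_congr rfl fun k _ => ?_
  ring

/-- `B` solves the finite system `F(n) = l`, `(n, l)` in `d` -/
def Sol (c : Fin m → ℂ) (D : ℕ) (d : Finset (ℕ × LogForms)) (B : Fin m → ℂ[X]) : Prop :=
  (∀ i, (B i).degree < D) ∧ ¬ Trivial c B ∧ ∀ p ∈ d, F c B p.1 = p.2

open Classical in
/-- the countable family -/
noncomputable def Q (E : Set ℂ) (j : Σ m : ℕ, ℕ × (Fin m → E) × Finset (ℕ × LogForms)) : Set ℕ :=
  if h : (Function.Injective fun i => ((j.2.2.1 i : E) : ℂ)) ∧ ∃ B, Sol (fun i => ((j.2.2.1 i : E) : ℂ)) j.2.1 j.2.2.2 B then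
    {n : ℕ | F (fun i => ((j.2.2.1 i : E) : ℂ)) h.2.choose n ∈ LogForms} else ∅

theorem Q_thin (E : Set ℂ) (j : Σ m : ℕ, ℕ × (Fin m → E) × Finset (ℕ × LogForms)) : LogThin (Q E j) := by
  classical
  by_cases h : (Function.Injective fun i => ((j.2.2.1 i : E) : ℂ)) ∧
      ∃ B, Sol (fun i => ((j.2.2.1 i : E) : ℂ)) j.2.1 j.2.2.2 B
  · obtain ⟨C, hC⟩ := Pool.Agent.Results.MP_93d8d2_nt.GeneralizedTowers.result.1 j.1 j.2.1
    refine ⟨C, fun N hN => ?_⟩
    have h1 := (hC _ h.1 h.2.choose h.2.choose_spec.1).2 h.2.choose_spec.2.1 N hN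
    refine le_trans (le_of_eq ?_) h1
    unfold Q
    rw [dif_pos h]
    congr
  · refine ⟨0, fun N hN => ?_⟩
    unfold Q
    rw [dif_neg h]
    simp

theorem exists_bound (B : Fin m → ℂ[X]) : ∃ D : ℕ, ∀ i, (B i).degree < D := by
  refine ⟨(Finset.univ.sup fun i => (B i).natDegree) + 1, fun i => ?_⟩
  refine lt_of_le_of_lt Polynomial.degree_le_natDegree ?_
  have h1 : (B i).natDegree ≤ Finset.univ.sup fun i => (B i).natDegree :=
    Finset.le_sup (f := fun i => (B i).natDegree) (Finset.mem_univ i)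
  exact_mod_cast Nat.lt_succ_of_le h1

/-- the exceptional set of `B` is contained in one of the sets of the countable family -/
theorem exists_idx (E : Set ℂ) (c : Fin m → ℂ) (hc : Function.Injective c) (hE : ∀ i, c i ∈ E) (B : Fin m → ℂ[X])
    (hB : ¬ Trivial c B) : ∃ j : Σ m : ℕ, ℕ × (Fin m → E) × Finset (ℕ × LogForms), ∀ n : ℕ, F c B n ∈ LogForms → n ∈ Q E j := by
  classical
  obtain ⟨D, hD⟩ := exists_bound B
  -- finitely many points
  have h1 : (Submodule.span ℂ (Wt c D '' {n : ℕ | F c B n ∈ LogForms})).FG := IsNoetherian.noetherian _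
  obtain ⟨t, ht, hspan⟩ := (Submodule.fg_span_iff_fg_span_finset_subset _).1 h1
  obtain ⟨s, hs, rfl⟩ := Finset.subset_set_image_iff.1 ht
  let d : Finset (ℕ × LogForms) := s.attach.image fun n => (n.1, ⟨F c B n.1, hs n.2⟩)
  have hsol : Sol c D d B := by
    refine ⟨hD, hB, fun p hp => ?_⟩
    obtain ⟨n, -, rfl⟩ := Finset.mem_image.1 hp
    rfl
  refine ⟨⟨m, D, fun i => ⟨c i, hE i⟩, d⟩, fun n hn => ?_⟩
  have h : (Function.Injective fun i => ((⟨c i, hE i⟩ : E) : ℂ)) ∧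
      ∃ B, Sol (fun i => ((⟨c i, hE i⟩ : E) : ℂ)) D d B := ⟨hc, B, hsol⟩
  unfold Q
  rw [dif_pos h]
  obtain ⟨g1, g2, g3⟩ := h.2.choose_spec
  obtain ⟨B', hB'⟩ : ∃ B', B' = h.2.choose := ⟨_, rfl⟩
  rw [← hB'] at g1 g2 g3 ⊢
  show F c B' n ∈ LogForms
  -- the functional
  let φ : (Fin m × Fin D → ℂ) →ₗ[ℂ] ℂ :=
    { toFun := fun v => ∑ p, ((B p.1).coeff p.2 - (B' p.1).coeff p.2) * v p
      map_add' := fun v w => by
        simp only [Pi.add_apply, mul_add, Finset.sum_add_distrib]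
      map_smul' := fun a v => by
        simp only [Pi.smul_apply, smul_eq_mul, Finset.mul_sum, RingHom.id_apply]
        exact Finset.sum_congr rfl fun p _ => by ring }
  have hφ : ∀ k : ℕ, φ (Wt c D k) = F c B k - F c B' k := by
    intro k
    rw [F_eq c hD, F_eq c g1, ← Finset.sum_sub_distrib]
    exact Finset.sum_congr rfl fun p _ => by ring
  have hker : Submodule.span ℂ (Wt c D '' {n : ℕ | F c B n ∈ LogForms}) ≤ LinearMap.ker φ := by
    rw [hspan, Submodule.span_le]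
    intro v hv
    rw [Finset.coe_image] at hv
    obtain ⟨k, hk, rfl⟩ := hv
    rw [SetLike.mem_coe, LinearMap.mem_ker, hφ, sub_eq_zero]
    have h3 := g3 (k, ⟨F c B k, hs hk⟩) (Finset.mem_image.2 ⟨⟨k, hk⟩, Finset.mem_attach _ _, rfl⟩)
    exact h3.symm
  have h4 := hker (Submodule.subset_span ⟨n, hn, rfl⟩)
  rw [LinearMap.mem_ker, hφ, sub_eq_zero] at h4
  rw [← h4]
  exact hn

/-- the exponents `c` for which some `v n ^ c`, `v ≠ 0`, has two exceptional arguments -/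
def CSet : Set ℂ :=
  {c | ∃ n n' : ℕ, 1 ≤ n ∧ 1 ≤ n' ∧ n ≠ n' ∧ ∃ l l' : ℂ, l ∈ LogForms ∧ l' ∈ LogForms ∧ l' ≠ 0 ∧
    Complex.exp (c * ((Real.log n : ℝ) : ℂ) - c * ((Real.log n' : ℝ) : ℂ)) = l / l'}

theorem countable_CSet : CSet.Countable := by
  have h0 := countable_logForms.to_subtype
  have h1 : CSet ⊆ ⋃ p : (ℕ × ℕ) × (LogForms × LogForms),
      {c : ℂ | 1 ≤ p.1.1 ∧ 1 ≤ p.1.2 ∧ p.1.1 ≠ p.1.2 ∧
        Complex.exp (c * ((Real.log p.1.1 : ℝ) : ℂ) - c * ((Real.log p.1.2 : ℝ) : ℂ)) = p.2.1 / p.2.2} := by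
    rintro c ⟨n, n', h1, h2, h3, l, l', hl, hl', -, h⟩
    exact Set.mem_iUnion.2 ⟨((n, n'), (⟨l, hl⟩, ⟨l', hl'⟩)), h1, h2, h3, h⟩
  refine Set.Countable.mono h1 (Set.countable_iUnion fun p => ?_)
  by_cases hp : 1 ≤ p.1.1 ∧ 1 ≤ p.1.2 ∧ p.1.1 ≠ p.1.2
  · have ht : ((Real.log p.1.1 : ℝ) : ℂ) - ((Real.log p.1.2 : ℝ) : ℂ) ≠ 0 := by
      rw [sub_ne_zero]
      intro h
      have h2 : Real.log p.1.1 = Real.log p.1.2 := by exact_mod_cast h
      apply hp.2.2
      have h3 := Real.log_injOn_pos (Set.mem_Ioi.2 (Nat.cast_pos.2 (show 0 < p.1.1 from hp.1)))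
        (Set.mem_Ioi.2 (Nat.cast_pos.2 (show 0 < p.1.2 from hp.2.1))) h2
      exact_mod_cast h3
    have h2 := countable_exp (Set.countable_singleton ((p.2.1 : ℂ) / p.2.2))
    refine (h2.preimage_of_injOn (f := fun c : ℂ => c * (((Real.log p.1.1 : ℝ) : ℂ) - ((Real.log p.1.2 : ℝ) : ℂ)))
      (fun a _ b _ h => mul_right_cancel₀ ht h)).mono ?_
    rintro c ⟨-, -, -, h⟩
    show Complex.exp (c * (((Real.log p.1.1 : ℝ) : ℂ) - ((Real.log p.1.2 : ℝ) : ℂ))) ∈ ({(p.2.1 : ℂ) / p.2.2} : Set ℂ)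
    rw [mul_sub]
    exact h
  · refine Set.countable_empty.mono ?_
    rintro c ⟨h2, h3, h4, -⟩
    exact hp ⟨h2, h3, h4⟩

theorem mem_CSet {v c : ℂ} (hv : v ≠ 0) {n n' : ℕ} (hn : 1 ≤ n) (hn' : 1 ≤ n') (hne : n ≠ n')
    (h : v * Complex.exp (c * ((Real.log n : ℝ) : ℂ)) ∈ LogForms)
    (h' : v * Complex.exp (c * ((Real.log n' : ℝ) : ℂ)) ∈ LogForms) : c ∈ CSet := by
  refine ⟨n, n', hn, hn', hne, _, _, h, h', mul_ne_zero hv (Complex.exp_ne_zero _), ?_⟩
  rw [Complex.exp_sub, mul_div_mul_left _ _ hv]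

end Pool.Agent.D0H63.TW
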