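import Pool.Agent.D0H4.Gam.Tower
import Pool.Agent.D0H63.MR.NearPair

set_option autoImplicit false

/-! The numbers of the exceptional exponents `x_i = (p_i + ∑ n_ij ω_j) / q`, `q, |p_i|, |n_ij| ≤ T`. -/

namespace Pool.Agent.D0H63.TW

open Finset Filter
open Pool.Agent.D0H4.Gam Pool.Agent.H301R2.SSE

variable {k d : ℕ}

/-- algebraic and, with `1`, linearly independent over the rational numbers -/
def Indep (ω : Fin d → ℝ) : Prop :=
  (∀ j, IsAlgebraic ℚ (ω j)) ∧ ∀ (q : ℚ) (n : Fin d → ℤ), ∑ j, (n j : ℝ) * ω j = q → n = 0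

def IsBase (b : Fin k → ℝ) : Prop :=
  (∀ i, 0 < b i) ∧ (∀ i, IsAlgebraic ℚ (b i)) ∧ ∀ n : Fin k → ℤ, ∏ i, b i ^ n i = 1 → n = 0

theorem Indep.div {ω : Fin d → ℝ} (h : Indep ω) {q : ℕ} (hq : 1 ≤ q) : Indep (fun j => ω j / q) := by
  have hq0 : (q : ℝ) ≠ 0 := by
    have : 0 < q := hq
    positivity
  refine ⟨fun j => ?_, fun r n hn => ?_⟩
  · exact (h.1 j).mul (isAlgebraic_natCast q).inv
  · refine h.2 (q * r) n ?_
    push_cast
    rw [← hn, Finset.mul_sum]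
    refine sum_congr rfl fun j _ => ?_
    field_simp

/-- the symmetric box -/
theorem count_sym {b : Fin k → ℝ} (hb : IsBase b) {ω : Fin d → ℝ} (hω : Indep ω) {v : ℂ} (hv : v ≠ 0) (T : ℕ) :
    {n : Fin k × Fin d → ℤ | (∀ p, |n p| ≤ T) ∧
      v * Complex.exp (lf b (fun i => ∑ j, (n (i, j) : ℝ) * ω j)) ∈ Lt}.Finite ∧
    ({n : Fin k × Fin d → ℤ | (∀ p, |n p| ≤ T) ∧
      v * Complex.exp (lf b (fun i => ∑ j, (n (i, j) : ℝ) * ω j)) ∈ Lt}.ncard : ℝ) ≤
      1 + Real.sqrt ((k * d + 1) * (2 * (2 * T + 1)) ^ (k * d)) := by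
  classical
  set l : Fin k × Fin d → ℂ := fun p => (ω p.2 : ℂ) * lg b p.1 with hl
  have hlin : ∀ m : Fin k × Fin d → ℤ, lin l m = lf b (fun i => ∑ j, (m (i, j) : ℝ) * ω j) := by
    intro m
    unfold lin lf
    rw [Fintype.sum_prod_type]
    refine sum_congr rfl (fun i _ => ?_)
    push_cast
    rw [sum_mul]
    refine sum_congr rfl (fun j _ => ?_)
    simp only [hl]
    ring
  have htr : ∀ m : Fin k × Fin d → ℤ, m ≠ 0 → Transcendental ℚ (Complex.exp (lin l m)) := by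
    intro m hm0
    rw [hlin]
    refine tr_of hb.1 hb.2.1 hb.2.2 ?_ ?_
    · intro i
      rw [← mem_algebraicClosure_iff (F := ℚ) (E := ℝ)]
      refine sum_mem (fun j _ => mul_mem ?_ (mem_algebraicClosure_iff.mpr (hω.1 j)))
      exact intCast_mem _ _
    · intro hall
      apply hm0
      funext p
      obtain ⟨q, hq⟩ := hall p.1
      have := hω.2 q (fun j => m (p.1, j)) hq
      exact congrFun this p.2
  have hv' : v * Complex.exp (lin l (fun _ => -(T : ℤ))) ≠ 0 := mul_ne_zero hv (Complex.exp_ne_zero _)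
  have hmain := count_box l htr hv' (2 * T + 1)
  rw [Fintype.card_prod, Fintype.card_fin, Fintype.card_fin] at hmain
  have hsub : {n : Fin k × Fin d → ℤ | (∀ p, |n p| ≤ T) ∧
      v * Complex.exp (lf b (fun i => ∑ j, (n (i, j) : ℝ) * ω j)) ∈ Lt} ⊆
      (fun n : Fin k × Fin d → ℤ => n + fun _ => -(T : ℤ)) ''
        ((({n ∈ Pool.Agent.D0H4.Gam.box (Fin k × Fin d) (2 * T + 1) | v * Complex.exp (lin l (fun _ => -(T : ℤ))) * Complex.exp (lin l n) ∈ Lt} :
          Finset (Fin k × Fin d → ℤ))) : Set (Fin k × Fin d → ℤ)) := by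
    rintro n ⟨hn, hbad⟩
    refine ⟨n + fun _ => (T : ℤ), ?_, ?_⟩
    · rw [Finset.mem_coe, mem_filter]
      refine ⟨?_, ?_⟩
      · unfold Pool.Agent.D0H4.Gam.box
        rw [Fintype.mem_piFinset]
        intro p
        have h1 := abs_le.1 (hn p)
        rw [mem_Ico, Pi.add_apply]
        constructor
        · linarith [h1.1]
        · push_cast
          linarith [h1.2]
      · rw [mul_assoc, ← Complex.exp_add, ← lin_add, hlin]
        have h2 : ((fun _ => -(T : ℤ)) + (n + fun _ => (T : ℤ)) : Fin k × Fin d → ℤ) = n := by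
          funext p
          simp
        rw [h2]
        exact hbad
    · funext p
      simp
  refine ⟨(Set.Finite.image _ (Finset.finite_toSet _)).subset hsub, ?_⟩
  have h1 := (Set.ncard_le_ncard hsub (Set.Finite.image _ (Finset.finite_toSet _))).trans
    (Set.ncard_image_le (Finset.finite_toSet _))
  rw [Set.ncard_coe_finset] at h1
  push_cast at hmain
  exact (Nat.cast_le.2 h1).trans hmain

/-- the approximations `x_i = (p_i + ∑ n_ij ω_j) / q` -/
def Pts (ω : Fin d → ℝ) (T : ℝ) : Set (Fin k → ℝ) :=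
  {x | ∃ (q : ℕ) (p : Fin k → ℤ) (n : Fin k × Fin d → ℤ), 1 ≤ q ∧ (q : ℝ) ≤ T ∧ (∀ i, |(p i : ℝ)| ≤ T) ∧
    (∀ i, |(n i : ℝ)| ≤ T) ∧ ∀ i, x i = (p i + ∑ j, (n (i, j) : ℝ) * ω j) / q}

theorem pts_mono (ω : Fin d → ℝ) {T T' : ℝ} (h : T ≤ T') : (Pts ω T : Set (Fin k → ℝ)) ⊆ Pts ω T' := by
  rintro x ⟨q, p, n, h1, h2, h3, h4, h5⟩
  exact ⟨q, p, n, h1, h2.trans h, fun i => (h3 i).trans h, fun i => (h4 i).trans h, h5⟩

/-- the number of the exceptional approximations -/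
theorem count_pts {b : Fin k → ℝ} (hb : IsBase b) {ω : Fin d → ℝ} (hω : Indep ω) {v : ℂ} (hv : v ≠ 0) (T : ℕ) :
    {x : Fin k → ℝ | x ∈ Pts ω (T : ℝ) ∧ v * Complex.exp (lf b x) ∈ Lt}.Finite ∧
    ({x : Fin k → ℝ | x ∈ Pts ω (T : ℝ) ∧ v * Complex.exp (lf b x) ∈ Lt}.ncard : ℝ) ≤
      T * ((2 * T + 1) ^ k * (1 + Real.sqrt ((k * d + 1) * (2 * (2 * T + 1)) ^ (k * d)))) := by
  classical
  let S : ℕ → Set (Fin k × Fin d → ℤ) := fun q => {n | (∀ p, |n p| ≤ T) ∧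
    v * Complex.exp (lf b (fun i => ∑ j, (n (i, j) : ℝ) * (ω j / q))) ∈ Lt}
  let P : Set (Fin k → ℤ) := {p | ∀ i, |p i| ≤ T}
  have hPf : P = ((Fintype.piFinset fun _ : Fin k => Icc (-(T : ℤ)) T : Finset (Fin k → ℤ)) : Set (Fin k → ℤ)) := by
    ext p
    simp only [P, Set.mem_ofPred_eq, Finset.mem_coe, Fintype.mem_piFinset, mem_Icc, abs_le]
  have hPfin : P.Finite := by
    rw [hPf]
    exact Finset.finite_toSet _
  have hPcard : (P.ncard : ℝ) = (2 * T + 1) ^ k := by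
    rw [hPf, Set.ncard_coe_finset, Fintype.card_piFinset]
    simp only [Int.card_Icc, prod_const, card_univ, Fintype.card_fin]
    push_cast
    congr 1
    have : ((T : ℤ) + 1 - -(T : ℤ)).toNat = 2 * T + 1 := by omega
    rw [this]
    push_cast
    ring
  let G : ℕ → Set (Fin k → ℝ) := fun q =>
    (fun z : (Fin k → ℤ) × (Fin k × Fin d → ℤ) => fun i => (z.1 i + ∑ j, (z.2 (i, j) : ℝ) * ω j) / q) '' (P ×ˢ S q)
  have hS : ∀ q, 1 ≤ q → (S q).Finite ∧ ((S q).ncard : ℝ) ≤ 1 + Real.sqrt ((k * d + 1) * (2 * (2 * T + 1)) ^ (k * d)) :=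
    fun q hq => count_sym hb (hω.div hq) hv T
  have hG : ∀ q, 1 ≤ q → (G q).Finite ∧ ((G q).ncard : ℝ) ≤
      (2 * T + 1) ^ k * (1 + Real.sqrt ((k * d + 1) * (2 * (2 * T + 1)) ^ (k * d))) := by
    intro q hq
    have hfin := hPfin.prod (hS q hq).1
    refine ⟨hfin.image _, ?_⟩
    have h1 : ((G q).ncard : ℝ) ≤ ((P ×ˢ S q).ncard : ℝ) := Nat.cast_le.2 (Set.ncard_image_le hfin)
    rw [Set.ncard_prod, Nat.cast_mul, hPcard] at h1
    exact h1.trans (mul_le_mul_of_nonneg_left (hS q hq).2 (by positivity))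
  have hsub : {x : Fin k → ℝ | x ∈ Pts ω (T : ℝ) ∧ v * Complex.exp (lf b x) ∈ Lt} ⊆ ⋃ q ∈ Icc 1 T, G q := by
    rintro x ⟨⟨q, p, n, h1, h2, h3, h4, h5⟩, hbad⟩
    have hq0 : (q : ℝ) ≠ 0 := by
      have : 0 < q := h1
      positivity
    rw [Set.mem_iUnion₂]
    refine ⟨q, mem_Icc.2 ⟨h1, by exact_mod_cast h2⟩, (p, n), ⟨fun i => ?_, fun i => ?_, ?_⟩, ?_⟩
    · exact_mod_cast h3 i
    · exact_mod_cast h4 i
    · have hx : x = (fun i => (p i : ℝ) / q) + (fun i => ∑ j, (n (i, j) : ℝ) * (ω j / q)) := by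
        funext i
        rw [h5 i, Pi.add_apply, add_div, Finset.sum_div]
        congr 1
        exact sum_congr rfl fun j _ => by rw [mul_div_assoc]
      rw [hx, lf_add, Complex.exp_add] at hbad
      have halg : IsAlgebraic ℚ (Complex.exp (lf b (fun i => (p i : ℝ) / q))) :=
        alg_of hb.1 hb.2.1 (fun i => ⟨(p i : ℚ) / q, by push_cast; rfl⟩)
      have h6 : Complex.exp (lf b (fun i => (p i : ℝ) / q)) *
          (v * Complex.exp (lf b (fun i => ∑ j, (n (i, j) : ℝ) * (ω j / q)))) ∈ Lt := by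
        convert hbad using 1
        ring
      rwa [Lt_mul_iff halg (Complex.exp_ne_zero _)] at h6
    · funext i
      exact (h5 i).symm
  have hUfin : (⋃ q ∈ Icc 1 T, G q).Finite := by
    refine Set.Finite.biUnion (Finset.finite_toSet _) fun q hq => (hG q ?_).1
    exact (mem_Icc.1 (Finset.mem_coe.1 hq)).1
  refine ⟨hUfin.subset hsub, ?_⟩
  have h1 := (Set.ncard_le_ncard hsub hUfin).trans (Finset.set_ncard_biUnion_le _ _)
  refine (Nat.cast_le.2 h1).trans ?_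
  push_cast
  refine (Finset.sum_le_sum fun q hq => (hG q (mem_Icc.1 hq).1).2).trans (le_of_eq ?_)
  rw [sum_const, Nat.card_Icc, Nat.add_sub_cancel, nsmul_eq_mul]

end Pool.Agent.D0H63.TW
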