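import Pool.Agent.D0H63.TW.Sym
import Pool.Agent.D0H63.MR.Lev

set_option autoImplicit false

/-! Towers with top entries near a real vector: the exceptional real vectors. -/

namespace Pool.Agent.D0H63.TW

open Finset Filter
open Pool.Agent.D0H4.Gam Pool.Agent.H301R2.SSE

variable {k d : ℕ}

theorem count_level {b : Fin k → ℝ} (hb : IsBase b) {ω : Fin d → ℝ} (hω : Indep ω) {v : ℂ} (hv : v ≠ 0) :
    ∃ C : ℝ, ∀ m : ℕ, {x : Fin k → ℝ | x ∈ Pts ω ((2 : ℝ) ^ m) ∧ v * Complex.exp (lf b x) ∈ Lt}.Finite ∧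
    ({x : Fin k → ℝ | x ∈ Pts ω ((2 : ℝ) ^ m) ∧ v * Complex.exp (lf b x) ∈ Lt}.ncard : ℝ) ≤
      C * ((2 : ℝ) ^ m) ^ (1 + (k : ℝ) + k * d / 2) := by
  refine ⟨3 ^ k * (1 + Real.sqrt ((k * d + 1) * 6 ^ (k * d))), fun m => ?_⟩
  have h := count_pts hb hω hv (2 ^ m)
  push_cast at h
  refine ⟨h.1, h.2.trans ?_⟩
  obtain ⟨X, hX⟩ : ∃ X : ℝ, X = 2 ^ m := ⟨_, rfl⟩
  have hX1 : 1 ≤ X := by rw [hX]; exact one_le_pow₀ (by norm_num)
  have hX0 : 0 < X := by linarith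
  rw [← hX]
  have h1 : (2 * X + 1) ^ k ≤ 3 ^ k * X ^ k := by
    rw [← mul_pow]
    exact pow_le_pow_left₀ (by linarith) (by linarith) _
  have h2 : Real.sqrt ((k * d + 1) * (2 * (2 * X + 1)) ^ (k * d)) ≤
      Real.sqrt ((k * d + 1) * 6 ^ (k * d)) * X ^ ((k * d : ℝ) / 2) := by
    have h3 : ((k : ℝ) * d + 1) * (2 * (2 * X + 1)) ^ (k * d) ≤ ((k * d + 1) * 6 ^ (k * d)) * X ^ (k * d) := by
      rw [mul_assoc, ← mul_pow]
      refine mul_le_mul_of_nonneg_left ?_ (by positivity)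
      exact pow_le_pow_left₀ (by linarith) (by linarith) _
    refine (Real.sqrt_le_sqrt h3).trans (le_of_eq ?_)
    rw [Real.sqrt_mul (by positivity)]
    congr 1
    rw [Real.sqrt_eq_rpow, ← Real.rpow_natCast, ← Real.rpow_mul hX0.le]
    congr 1
    push_cast
    ring
  have h4 : 1 ≤ X ^ ((k * d : ℝ) / 2) := Real.one_le_rpow hX1 (by positivity)
  have h5 : X ^ (1 + (k : ℝ) + k * d / 2) = X * (X ^ k * X ^ ((k * d : ℝ) / 2)) := by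
    rw [Real.rpow_add hX0, Real.rpow_add hX0, Real.rpow_one, Real.rpow_natCast]
    ring
  rw [h5]
  have h6 : 0 ≤ Real.sqrt (((k : ℝ) * d + 1) * 6 ^ (k * d)) := Real.sqrt_nonneg _
  calc X * ((2 * X + 1) ^ k * (1 + Real.sqrt ((k * d + 1) * (2 * (2 * X + 1)) ^ (k * d)))) ≤
        X * ((3 ^ k * X ^ k) * (X ^ ((k * d : ℝ) / 2) + Real.sqrt ((k * d + 1) * 6 ^ (k * d)) * X ^ ((k * d : ℝ) / 2))) := by
          gcongr
    _ = _ := by ring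

theorem one {b : Fin k → ℝ} (hb : IsBase b) {ω : Fin d → ℝ} (hω : Indep ω) {v : ℂ} (hv : v ≠ 0) {τ : ℝ} (hτ : 0 < τ) :
    dimH {ξ : Fin k → ℝ | ¬ ∀ C : ℝ, ∀ᶠ m : ℕ in atTop,
      ∀ x ∈ {x : Fin k → ℝ | x ∈ Pts ω ((2 : ℝ) ^ m) ∧ v * Complex.exp (lf b x) ∈ Lt},
        ¬ dist ξ x ≤ C * ((2 : ℝ) ^ m) ^ (-τ)} ≤ ENNReal.ofReal ((1 + (k : ℝ) + k * d / 2) / τ) := by
  obtain ⟨C, hC⟩ := count_level hb hω hv
  refine MR.levels (fun m => {x : Fin k → ℝ | x ∈ Pts ω ((2 : ℝ) ^ m) ∧ v * Complex.exp (lf b x) ∈ Lt})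
    (by positivity) hτ fun ε hε => ⟨|C|, Eventually.of_forall fun m => ⟨(hC m).1, (hC m).2.trans ?_⟩⟩
  have h1 : (1 : ℝ) ≤ 2 ^ m := one_le_pow₀ (by norm_num)
  calc C * ((2 : ℝ) ^ m) ^ (1 + (k : ℝ) + k * d / 2) ≤ |C| * ((2 : ℝ) ^ m) ^ (1 + (k : ℝ) + k * d / 2) :=
        mul_le_mul_of_nonneg_right (le_abs_self C) (by positivity)
    _ ≤ |C| * ((2 : ℝ) ^ m) ^ (1 + (k : ℝ) + k * d / 2 + ε) :=
        mul_le_mul_of_nonneg_left (Real.rpow_le_rpow_of_exponent_le h1 (by linarith)) (abs_nonneg _)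

/-- the point with the given coordinates -/
noncomputable def pt (ω : Fin d → ℝ) (z : ℕ × (Fin k → ℤ) × (Fin k × Fin d → ℤ)) : Fin k → ℝ :=
  fun i => (z.2.1 i + ∑ j, (z.2.2 (i, j) : ℝ) * ω j) / z.1

theorem top (hLt : (Lt : Set ℂ).Countable) {τ : ℝ} (hτ : 0 < τ) :
    ∃ E : Set (Fin k → ℝ), dimH E ≤ ENNReal.ofReal ((1 + (k : ℝ) + k * d / 2) / τ) ∧ ∀ ξ, ξ ∉ E →
      ∀ (b : Fin k → ℝ), IsBase b → ∀ ω : Fin d → ℝ, Indep ω → ∀ v : ℂ, v ≠ 0 → ∀ C : ℝ, ∀ᶠ T : ℝ in atTop,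
        ∀ x ∈ Pts ω T, (∀ i, |ξ i - x i| ≤ C * T ^ (-τ)) → v * Complex.exp (lf b x) ∉ Lt := by
  classical
  have hA : Countable {x : ℝ // IsAlgebraic ℚ x} := (Algebraic.countable ℚ ℝ).to_subtype
  have hL : Countable ↑(Lt : Set ℂ) := hLt.to_subtype
  let J := (Fin k → {x : ℝ // IsAlgebraic ℚ x}) × (Fin d → {x : ℝ // IsAlgebraic ℚ x}) ×
    (ℕ × (Fin k → ℤ) × (Fin k × Fin d → ℤ)) × ↑(Lt : Set ℂ)
  let B : J → Fin k → ℝ := fun j i => (j.1 i : ℝ)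
  let Om : J → Fin d → ℝ := fun j i => (j.2.1 i : ℝ)
  let V : J → ℂ := fun j => (j.2.2.2 : ℂ) / Complex.exp (lf (B j) (pt (Om j) j.2.2.1))
  let G : J → Set (Fin k → ℝ) := fun j => if IsBase (B j) ∧ Indep (Om j) ∧ V j ≠ 0 then
    {ξ : Fin k → ℝ | ¬ ∀ C : ℝ, ∀ᶠ m : ℕ in atTop,
      ∀ x ∈ {x : Fin k → ℝ | x ∈ Pts (Om j) ((2 : ℝ) ^ m) ∧ V j * Complex.exp (lf (B j) x) ∈ Lt},
        ¬ dist ξ x ≤ C * ((2 : ℝ) ^ m) ^ (-τ)} else ∅
  obtain ⟨E, hE⟩ : ∃ E : Set (Fin k → ℝ), E = ⋃ j : J, G j := ⟨_, rfl⟩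
  refine ⟨E, ?_, fun ξ hξ b hb ω hω v hv C => ?_⟩
  · rw [hE, dimH_iUnion]
    refine iSup_le fun j => ?_
    by_cases h : IsBase (B j) ∧ Indep (Om j) ∧ V j ≠ 0
    · simp only [G, if_pos h]
      exact one h.1 h.2.1 h.2.2 hτ
    · simp only [G, if_neg h]
      rw [dimH_empty]
      exact bot_le
  · by_cases hex : ∃ z : ℕ × (Fin k → ℤ) × (Fin k × Fin d → ℤ), v * Complex.exp (lf b (pt ω z)) ∈ Lt
    · obtain ⟨z, hz⟩ := hex
      let j : J := (fun i => ⟨b i, hb.2.1 i⟩, fun i => ⟨ω i, hω.1 i⟩, z, ⟨_, hz⟩)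
      have hV : V j = v := mul_div_cancel_right₀ _ (Complex.exp_ne_zero _)
      have h1 : ξ ∉ G j := by
        intro h
        apply hξ
        rw [hE]
        exact Set.mem_iUnion.2 ⟨j, h⟩
      have h2 : IsBase (B j) ∧ Indep (Om j) ∧ V j ≠ 0 := ⟨hb, hω, by rw [hV]; exact hv⟩
      simp only [G, if_pos h2] at h1
      rw [Set.mem_ofPred_eq, not_not] at h1
      have h3 := h1 (|C| * 2 ^ τ)
      filter_upwards [MR.lv_tendsto.eventually h3, eventually_ge_atTop 1] with T hT hT1 x hx hclose hbad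
      obtain ⟨h4, h5⟩ := MR.lv_spec hT1
      have hT0 : 0 < T := by linarith
      refine hT x ⟨pts_mono _ h4 hx, ?_⟩ ?_
      · rw [hV]
        exact hbad
      · have h6 : T ^ (-τ) ≤ 2 ^ τ * ((2 : ℝ) ^ MR.lv T) ^ (-τ) := by
          have h7 : ((2 : ℝ) * T) ^ (-τ) ≤ ((2 : ℝ) ^ MR.lv T) ^ (-τ) :=
            Real.rpow_le_rpow_of_nonpos (by positivity) h5 (by linarith)
          rw [Real.mul_rpow (by norm_num) hT0.le, Real.rpow_neg (by norm_num : (0 : ℝ) ≤ 2)] at h7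
          have h8 : (0 : ℝ) < 2 ^ τ := by positivity
          rwa [inv_mul_le_iff₀ h8] at h7
        rw [dist_pi_le_iff (by positivity)]
        intro i
        rw [Real.dist_eq]
        calc |ξ i - x i| ≤ C * T ^ (-τ) := hclose i
          _ ≤ |C| * T ^ (-τ) := mul_le_mul_of_nonneg_right (le_abs_self C) (by positivity)
          _ ≤ |C| * (2 ^ τ * ((2 : ℝ) ^ MR.lv T) ^ (-τ)) := mul_le_mul_of_nonneg_left h6 (abs_nonneg _)
          _ = _ := by ring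
    · push Not at hex
      refine Eventually.of_forall fun T x hx _ => ?_
      obtain ⟨q, p, n, h1, h2, h3, h4, h5⟩ := hx
      have h6 : x = pt ω (q, p, n) := funext fun i => h5 i
      rw [h6]
      exact hex _

end Pool.Agent.D0H63.TW
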